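import Pool.Agent.Helper95.GB.Iface

/-! # GB/PL/Ord: order facts about `PD` (stub, prove in place)

All statements follow from the axioms by (linear) arithmetic.  Hints.
* `par_lt`: `a1 (t a)`.  `lo_inj_some`: `a4` for `t a`, `t b`.
* `lo_none_le`: induction on `lo v` (`v = some a`: `lo (par a) < lo (some a)`).  `hi_le_none`: the same induction with
`a2`.  `all_bey`: `lo none ≤ lo (vt j) < pos j < hi (vt j) ≤ hi none`.
* `lo_inj`: `v = some a, w = none`: `lo none ≤ lo (par a) < lo (some a)`.
* `inb_bey`: for `k` with `inb k x`: if `k = t a`: `lo a ≤ pos x ≤ hi (some a)`, `lo (par a) < lo a`, `hi a < hi (par a)`;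
for a leaf `pos x = pos k`.
* `inb_leaf`: `en k = pos k` and `a4`.  `inb_t`: `pos x ≠ hi (some a)` (`a8`), and `pos x = lo (some a)` means `x = t a`.
* `bey_anc`: (`v` is an ancestor or equal of `vt x` in terms of intervals) is `a3`; conversely
`bey_of_le`: if `lo v ≤ lo (vt x)`, `hi (vt x) ≤ hi v` then `bey v x` by `a1`.
* `part`: existence: strong induction on `lo (vt x)`.  Let `bey v x`; by `a3` `lo v ≤ lo (vt x)` and
`hi (vt x) ≤ hi v`.  If `lo v = lo (vt x)` then `v = vt x` and `k = x`.  Otherwise `vt x = some a`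
(`lo none ≤ lo v`), `lo v < lo (some a) < hi v` (`lo a < pos x < hi (some a) ≤ hi v`), so `bey v (t a)`, and by induction
(`lo (vt (t a)) = lo (par a) < lo (some a)`) there is `k` at `v` with `inb k (t a)`; `k` is not a leaf unless `k = t a`
(then `inb (t a) x`); if `k = t b` with `bey (some b) (t a)` then by `a3` `hi (par a) ≤ hi (some b)`, hence
`hi (some a) ≤ hi (some b)` and `inb (t b) x`.
Uniqueness: if `inb k x`, `inb l x`, `vt k = vt l`, `k ≠ l`, `pos k < pos l`: then `k = t a` and
`lo (some a) < pos l ≤ pos x ≤ hi (some a)`, so (`a8`) `bey (some a) l`, `a3`: `lo (some a) ≤ lo (vt l) = lo (par a) < lo (some a)`.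
* `inb_mono`: `inb k x`, `inb x y` imply `inb k y`: if `x = t a` and `k = t b`, `bey (some b) (t a)`: `hi a < hi (par a) ≤ hi b`.
* `meet`: let `x, y` with `pos x < pos y`, not `inb x y`.  Take the vertex `v` with `bey v x`, `bey v y` and `lo v`
maximal (exists: `none`; finitely many or by strong induction along the branches: if the branches of `x` and `y` at
`v` are the same `k`, then `k ≠ x`?  if `k = x` then `inb x y`; if `k = y` then `inb y x`, so `pos y ≤ pos x`; so `k = t a`
with `bey (some a) x` and `bey (some a) y`, contradiction to maximality).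
-/

set_option autoImplicit false

namespace GB

namespace PD

variable {W C Z : Type} {P : PD W C Z}

theorem Ax.par_lt (h : P.Ax) (a : W) : P.lo (P.par a) < P.lo (some a) := (h.a1 (.t a)).1

theorem Ax.lo_none_le (h : P.Ax) (v : Option W) : P.lo none ≤ P.lo v := by
  induction hn : P.lo v using Nat.strong_induction_on generalizing v with
  | _ n ih =>
    cases v with
    | none => exact hn.le
    | some a =>
      have h1 := h.par_lt a
      have h2 := ih (P.lo (P.par a)) (hn ▸ h1) (P.par a) rfl
      omega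

theorem Ax.hi_le_none (h : P.Ax) (v : Option W) : P.hi v ≤ P.hi none := by
  induction hn : P.lo v using Nat.strong_induction_on generalizing v with
  | _ n ih =>
    cases v with
    | none => exact le_rfl
    | some a =>
      have h1 := h.par_lt a
      have h2 := ih (P.lo (P.par a)) (hn ▸ h1) (P.par a) rfl
      have h3 := h.a2 a
      omega

theorem Ax.all_bey (h : P.Ax) (x : JJ W C Z) : P.bey none x := by
  have h1 := h.a1 x
  have h2 := h.lo_none_le (P.vt x)
  have h3 := h.hi_le_none (P.vt x)
  exact ⟨by omega, by omega⟩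

theorem Ax.lo_inj (h : P.Ax) : Function.Injective P.lo := by
  intro v w hvw
  cases v with
  | none =>
    cases w with
    | none => rfl
    | some b =>
      have h1 := h.par_lt b
      have h2 := h.lo_none_le (P.par b)
      omega
  | some a =>
    cases w with
    | none =>
      have h1 := h.par_lt a
      have h2 := h.lo_none_le (P.par a)
      omega
    | some b =>
      have h1 : (JJ.t a : JJ W C Z) = .t b := h.a4 hvw
      injection h1 with h2
      rw [h2]

theorem Ax.inb_self (h : P.Ax) (x : JJ W C Z) : P.inb x x := by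
  refine ⟨le_rfl, ?_⟩
  cases x with
  | t a => exact (h.a0 (some a)).le
  | m c => exact le_rfl
  | p c => exact le_rfl
  | z k => exact le_rfl

theorem Ax.inb_bey (h : P.Ax) {k x : JJ W C Z} (hk : P.inb k x) : P.bey (P.vt k) x := by
  obtain ⟨h1, h2⟩ := hk
  have h3 := h.a1 k
  cases k with
  | t a =>
    have h4 := h.a2 a
    have h5 : P.en (.t a) = P.hi (some a) := rfl
    have h6 : P.vt (.t a) = P.par a := rfl
    rw [h6] at h3 ⊢
    exact ⟨by omega, by omega⟩
  | m c =>
    have h5 : P.en (.m c) = P.pos (.m c) := rfl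
    exact ⟨by omega, by omega⟩
  | p c =>
    have h5 : P.en (.p c) = P.pos (.p c) := rfl
    exact ⟨by omega, by omega⟩
  | z c =>
    have h5 : P.en (.z c) = P.pos (.z c) := rfl
    exact ⟨by omega, by omega⟩

theorem Ax.inb_leaf (h : P.Ax) {k x : JJ W C Z} (hk : ∀ a, k ≠ .t a) : P.inb k x ↔ x = k := by
  constructor
  · rintro ⟨h1, h2⟩
    apply h.a4
    have h3 : P.en k = P.pos k := by
      cases k with
      | t a => exact absurd rfl (hk a)
      | m c => rfl
      | p c => rfl
      | z c => rfl
    omega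
  · rintro rfl
    exact h.inb_self x

theorem Ax.inb_t (h : P.Ax) {a : W} {x : JJ W C Z} :
    P.inb (.t a) x ↔ x = .t a ∨ P.bey (some a) x := by
  constructor
  · rintro ⟨h1, h2⟩
    by_cases h3 : P.pos (.t a) = P.pos x
    · exact Or.inl (h.a4 h3).symm
    · right
      have h4 := h.a8 (some a) x
      have h5 : P.en (.t a) = P.hi (some a) := rfl
      have h6 : P.pos (.t a) = P.lo (some a) := rfl
      exact ⟨by omega, by omega⟩
  · rintro (rfl | h1)
    · exact h.inb_self _
    · have h5 : P.en (.t a) = P.hi (some a) := rfl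
      have h6 : P.pos (.t a) = P.lo (some a) := rfl
      obtain ⟨h2, h3⟩ := h1
      exact ⟨by omega, by omega⟩

theorem Ax.bey_of_le (h : P.Ax) {v : Option W} {x : JJ W C Z} (h1 : P.lo v ≤ P.lo (P.vt x))
    (h2 : P.hi (P.vt x) ≤ P.hi v) : P.bey v x := by
  have h3 := h.a1 x
  exact ⟨by omega, by omega⟩

theorem Ax.bey_iff (h : P.Ax) {v : Option W} {x : JJ W C Z} :
    P.bey v x ↔ P.lo v ≤ P.lo (P.vt x) ∧ P.hi (P.vt x) ≤ P.hi v := by
  exact ⟨fun hx => h.a3 v x hx.1 hx.2, fun hx => h.bey_of_le hx.1 hx.2⟩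

private theorem Ord_trans (h : P.Ax) {k x y : JJ W C Z} (h1 : P.inb k x) (h2 : P.inb x y) :
    P.inb k y := by
  cases x with
  | t a =>
    cases k with
    | t b =>
      rcases h.inb_t.1 h1 with h3 | h3
      · rw [← h3]
        exact h2
      · obtain ⟨h4, h5⟩ := h.a3 _ _ h3.1 h3.2
        have h6 := h.a2 a
        have h7 : P.vt (.t a) = P.par a := rfl
        have h8 : P.en (.t a) = P.hi (some a) := rfl
        have h9 : P.en (.t b) = P.hi (some b) := rfl
        rw [h7] at h5
        exact ⟨h1.1.trans h2.1, by have := h2.2; omega⟩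
    | m c =>
      have h3 := (h.inb_leaf (by simp)).1 h1
      rw [← h3]
      exact h2
    | p c =>
      have h3 := (h.inb_leaf (by simp)).1 h1
      rw [← h3]
      exact h2
    | z c =>
      have h3 := (h.inb_leaf (by simp)).1 h1
      rw [← h3]
      exact h2
  | m c =>
    have h3 := (h.inb_leaf (by simp)).1 h2
    rw [h3]
    exact h1
  | p c =>
    have h3 := (h.inb_leaf (by simp)).1 h2
    rw [h3]
    exact h1
  | z c =>
    have h3 := (h.inb_leaf (by simp)).1 h2
    rw [h3]
    exact h1

private theorem Ord_total {k l x : JJ W C Z} (h1 : P.inb k x) (h2 : P.inb l x) :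
    P.inb k l ∨ P.inb l k := by
  rcases le_total (P.pos k) (P.pos l) with h3 | h3
  · exact Or.inl ⟨h3, h2.1.trans h1.2⟩
  · exact Or.inr ⟨h3, h1.1.trans h2.2⟩

private theorem Ord_uniq (h : P.Ax) {k l : JJ W C Z} (hkl : P.vt k = P.vt l) (h1 : P.inb k l) :
    k = l := by
  cases k with
  | t a =>
    rcases h.inb_t.1 h1 with h3 | h3
    · exact h3.symm
    · exfalso
      obtain ⟨h4, -⟩ := h.a3 _ _ h3.1 h3.2
      rw [← hkl] at h4
      have h5 := h.par_lt a
      have h6 : P.vt (.t a) = P.par a := rfl
      rw [h6] at h4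
      omega
  | m c => exact ((h.inb_leaf (by simp)).1 h1).symm
  | p c => exact ((h.inb_leaf (by simp)).1 h1).symm
  | z c => exact ((h.inb_leaf (by simp)).1 h1).symm

private theorem Ord_ex (h : P.Ax) {v : Option W} {x : JJ W C Z} (hx : P.bey v x) :
    ∃ k, P.vt k = v ∧ P.inb k x := by
  induction hn : P.lo (P.vt x) using Nat.strong_induction_on generalizing x with
  | _ n ih =>
    obtain ⟨h1, h2⟩ := h.a3 _ _ hx.1 hx.2
    by_cases h3 : P.lo v = P.lo (P.vt x)
    · exact ⟨x, (h.lo_inj h3).symm, h.inb_self x⟩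
    · cases hv : P.vt x with
      | none =>
        rw [hv] at h1 h3
        have := h.lo_none_le v
        omega
      | some a =>
        have h4 := h.a1 x
        rw [hv] at h1 h2 h3 h4 hn
        have h5 := h.par_lt a
        have h6 : P.pos (.t a) = P.lo (some a) := rfl
        have h7 : P.bey v (.t a) := by
          refine ⟨?_, ?_⟩
          · rw [h6]; omega
          · rw [h6]; omega
        obtain ⟨k, hk1, hk2⟩ := ih (P.lo (P.vt (.t a))) (by
          have h8 : P.vt (.t a) = P.par a := rfl
          rw [h8]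
          omega) h7 rfl
        exact ⟨k, hk1, Ord_trans h hk2 (h.inb_t.2 (Or.inr h4))⟩

/-- each half-edge at or beyond `v` is in exactly one branch at `v` -/
theorem Ax.part (h : P.Ax) {v : Option W} {x : JJ W C Z} (hx : P.bey v x) :
    ∃! k, P.vt k = v ∧ P.inb k x := by
  obtain ⟨k, hk1, hk2⟩ := Ord_ex h hx
  refine ⟨k, ⟨hk1, hk2⟩, fun l hl => ?_⟩
  rcases Ord_total hl.2 hk2 with h1 | h1
  · exact Ord_uniq h (hl.1.trans hk1.symm) h1
  · exact (Ord_uniq h (hk1.trans hl.1.symm) h1).symm

theorem Ax.inb_trans (h : P.Ax) {k x y : JJ W C Z} (h1 : P.inb k x) (h2 : P.inb x y) :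
    P.inb k y := by
  exact Ord_trans h h1 h2

/-- two branches containing `x` are comparable -/
theorem Ax.inb_total (h : P.Ax) {k l x : JJ W C Z} (h1 : P.inb k x) (h2 : P.inb l x) :
    P.inb k l ∨ P.inb l k := by
  exact Ord_total h1 h2

theorem Ax.meet (h : P.Ax) (x y : JJ W C Z) : P.inb x y ∨ P.inb y x ∨
    ∃ i j, P.vt i = P.vt j ∧ i ≠ j ∧ P.inb i x ∧ P.inb j y := by
  suffices H : ∀ n : ℕ, ∀ v : Option W, P.pos x - P.lo v = n → P.bey v x → P.bey v y →
      P.inb x y ∨ P.inb y x ∨ ∃ i j, P.vt i = P.vt j ∧ i ≠ j ∧ P.inb i x ∧ P.inb j y from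
    H _ none rfl (h.all_bey x) (h.all_bey y)
  intro n
  induction n using Nat.strong_induction_on with
  | _ n ih =>
    intro v hn hx hy
    obtain ⟨k, hk1, hk2⟩ := Ord_ex h hx
    obtain ⟨l, hl1, hl2⟩ := Ord_ex h hy
    by_cases hkl : k = l
    · subst hkl
      cases k with
      | t a =>
        rcases h.inb_t.1 hk2 with h3 | h3
        · rw [h3]
          exact Or.inl hl2
        · rcases h.inb_t.1 hl2 with h4 | h4
          · rw [h4]
            exact Or.inr (Or.inl hk2)
          · have h5 := h.par_lt a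
            have h6 : P.vt (.t a) = P.par a := rfl
            rw [h6] at hk1
            rw [hk1] at h5
            have h7 := h3.1
            exact ih (P.pos x - P.lo (some a)) (by omega) (some a) rfl h3 h4
      | m c =>
        rw [(h.inb_leaf (by simp)).1 hk2]
        exact Or.inl hl2
      | p c =>
        rw [(h.inb_leaf (by simp)).1 hk2]
        exact Or.inl hl2
      | z c =>
        rw [(h.inb_leaf (by simp)).1 hk2]
        exact Or.inl hl2
    · exact Or.inr (Or.inr ⟨k, l, hk1.trans hl1.symm, hkl, hk2, hl2⟩)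

/-- nested or disjoint -/
theorem Ax.bey_trans (h : P.Ax) {v : Option W} {a : W} {x : JJ W C Z} (h1 : P.bey v (.t a))
    (h2 : P.bey (some a) x) : P.bey v x := by
  obtain ⟨-, h4⟩ := h.a3 _ _ h1.1 h1.2
  have h5 := h.a2 a
  have h6 : P.vt (.t a) = P.par a := rfl
  have h7 : P.pos (.t a) = P.lo (some a) := rfl
  rw [h6] at h4
  obtain ⟨h8, h9⟩ := h1
  obtain ⟨h10, h11⟩ := h2
  exact ⟨by omega, by omega⟩

/-- if `x` is beyond `v` and beyond `w`, and `w` is not at or beyond `v`, then `v` is beyond `w` -/
theorem Ax.bey_comp (h : P.Ax) {v w : Option W} {x : JJ W C Z} (h1 : P.bey v x)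
    (h2 : P.bey w x) (h3 : P.lo w ≤ P.lo v) : P.hi v ≤ P.hi w := by
  rcases eq_or_lt_of_le h3 with h4 | h4
  · rw [h.lo_inj h4]
  · cases v with
    | none =>
      have := h.lo_none_le w
      omega
    | some a =>
      have h7 : P.pos (.t a) = P.lo (some a) := rfl
      obtain ⟨h8, h9⟩ := h1
      obtain ⟨h10, h11⟩ := h2
      obtain ⟨-, h12⟩ := h.a3 w (.t a) (by rw [h7]; exact h4) (by omega)
      have h5 := h.a2 a
      have h6 : P.vt (.t a) = P.par a := rfl
      rw [h6] at h12
      omega

/-- the plus end of a chord is at an ancestor: beyond `v` implies that the minus end is too -/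
theorem Ax.m_of_p (h : P.Ax) {v : Option W} {c : C} (hp : P.bey v (.p c)) : P.bey v (.m c) := by
  obtain ⟨h1, h2⟩ := h.a3 _ _ hp.1 hp.2
  obtain ⟨h3, h4, -⟩ := h.a5 c
  exact h.bey_of_le (h1.trans h3) (h4.trans h2)

/-- a branch which contains the plus end but is not the plus end contains the minus end -/
theorem Ax.inb_m_of_p (h : P.Ax) {k : JJ W C Z} {c : C} (hp : P.inb k (.p c)) (hk : k ≠ .p c) :
    P.inb k (.m c) := by
  cases k with
  | t a =>
    rcases h.inb_t.1 hp with h1 | h1
    · exact absurd h1.symm hk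
    · exact h.inb_t.2 (Or.inr (h.m_of_p h1))
  | m d => exact absurd ((h.inb_leaf (by simp)).1 hp).symm hk
  | p d => exact absurd ((h.inb_leaf (by simp)).1 hp).symm hk
  | z d => exact absurd ((h.inb_leaf (by simp)).1 hp).symm hk

end PD

end GB
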