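import Pool.Agent.Helper95.GB.PL.Basis

/-! # GB/PL/Face: the face of a gap (stub, prove in place)

The chords `i` with `χ i x = 1` are nested (`a6`, `a7`): let `st i = pos (mi i)`.  `ph x` is the innermost of them
(the one with the largest `st i`), or `none`.

Characterization to be proved (`exists_ph`): there is `ph : ℕ → Option Ch` with
(1) `ph x = none ↔ ∀ i, χ i x = 0`;
(2) if `ph x = some k` then `χ k x = 1`, and for all `i`: `χ i x = χ i (st k)`.
(3) if `χ i x = χ i y` for all `i` then `ph x = ph y`.
Proof of (2): if `χ i x = 1` then `st i ≤ st k ≤ x` by maximality, and if `i = inl c` also `x < pp c`, so `χ i (st k) = 1`.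
If `χ i (st k) = 1` and `i ≠ k`: `st i < st k`; for `i = inl c`, `k = inl c'`: by `a6` `pp c' < pp c`, and `x < pp c'`,
so `χ i x = 1`; `k = inr _` is impossible by `a7`; for `i = inr _`: `st i < st k ≤ x`, so `χ i x = 1`.
(3): define `ph x` from the set `{i | χ i x = 1}` only (e.g. by `Finset.exists_max_image` and choice on this set).

`face_flow`: for every `f` the function `ψ x = [ph x = f]` satisfies the hypotheses of `flow_of`: tame and the two
conditions on chords by (3), `chi_tame`, `chi_pp`.  The last one: `ph (lo none) = none` (no chord is open);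
if `Z` is empty then `ph (hi none - 1) = none`; if `Z = {k}`: at `hi none - 1` exactly `inr k` is open, at `pz k`
exactly `inr k` (`a7`; chords `c` with `pm c < pz k` are closed), at `pz k - 1` no chord is open.
-/

set_option autoImplicit false

namespace GB

namespace PD

variable {W C Z : Type} {P : PD W C Z}

private theorem fc_inl (c : C) (x : ℕ) :
    P.chi (Sum.inl c : Ch C Z) x = 1 ↔ P.pm c ≤ x ∧ x < P.pp c := by
  classical
  unfold chi
  simp only
  split_ifs with h1
  · exact ⟨fun _ => h1, fun _ => rfl⟩
  · exact ⟨fun h => absurd h (by norm_num), fun h => absurd h h1⟩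

private theorem fc_inr (k : Z) (x : ℕ) : P.chi (Sum.inr k : Ch C Z) x = 1 ↔ P.pz k ≤ x := by
  classical
  unfold chi
  simp only
  split_ifs with h1
  · exact ⟨fun _ => h1, fun _ => rfl⟩
  · exact ⟨fun h => absurd h (by norm_num), fun h => absurd h h1⟩

private theorem fc_cases (i : Ch C Z) (x : ℕ) : P.chi i x = 0 ∨ P.chi i x = 1 := by
  classical
  rcases i with c | k
  · unfold chi
    simp only
    split_ifs
    · exact Or.inr rfl
    · exact Or.inl rfl
  · unfold chi
    simp only
    split_ifs
    · exact Or.inr rfl
    · exact Or.inl rfl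

private theorem fc_eq_iff (i : Ch C Z) (x y : ℕ) :
    P.chi i x = P.chi i y ↔ (P.chi i x = 1 ↔ P.chi i y = 1) := by
  rcases fc_cases (P := P) i x with h | h <;> rcases fc_cases (P := P) i y with h' | h' <;>
    rw [h, h'] <;> simp

private theorem fc_mi_inj (i k : Ch C Z) (h : (mi i : JJ W C Z) = mi k) : i = k := by
  rcases i with c | a <;> rcases k with c' | a'
  · injection h with h
    rw [h]
  · exact absurd h (by intro h; injection h)
  · exact absurd h (by intro h; injection h)
  · injection h with h
    rw [h]

theorem Ax.exists_ph [Fintype C] [Fintype Z] (h : P.Ax) :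
    ∃ ph : ℕ → Option (Ch C Z),
      (∀ x, ph x = none ↔ ∀ i, P.chi i x = 0) ∧
      (∀ x k, ph x = some k → P.chi k x = 1 ∧
        ∀ i, P.chi i x = P.chi i (P.pos (mi k : JJ W C Z))) ∧
      (∀ x y, (∀ i, P.chi i x = P.chi i y) → ph x = ph y) := by
  classical
  have hex : ∀ A : Finset (Ch C Z), ∃ o : Option (Ch C Z), (o = none ↔ A = ∅) ∧
      ∀ k, o = some k → k ∈ A ∧ ∀ i ∈ A, P.pos (mi i : JJ W C Z) ≤ P.pos (mi k : JJ W C Z) := by
    intro A
    by_cases hA : A = ∅
    · exact ⟨none, by simp [hA], by simp⟩
    · obtain ⟨k, hk1, hk2⟩ := A.exists_max_image (fun i => P.pos (mi i : JJ W C Z))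
        (Finset.nonempty_iff_ne_empty.mpr hA)
      refine ⟨some k, by simp [hA], fun k' hk' => ?_⟩
      have hk'' : k = k' := Option.some.inj hk'
      subst hk''
      exact ⟨hk1, hk2⟩
  choose g hg1 hg2 using hex
  refine ⟨fun x => g (Finset.univ.filter fun i => P.chi i x = 1), fun x => ?_, fun x k hk => ?_,
    fun x y hxy => ?_⟩
  · rw [hg1, Finset.filter_eq_empty_iff]
    constructor
    · intro h1 i
      rcases fc_cases (P := P) i x with h2 | h2
      · exact h2
      · exact absurd h2 (h1 (Finset.mem_univ i))
    · intro h1 i _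
      rw [h1 i]
      norm_num
  · obtain ⟨hk1, hk2⟩ := hg2 _ k hk
    have hk1' : P.chi k x = 1 := (Finset.mem_filter.mp hk1).2
    refine ⟨hk1', fun i => ?_⟩
    rw [fc_eq_iff]
    have hkx : P.pos (mi k : JJ W C Z) ≤ x := by
      rcases k with c' | k'
      · exact ((fc_inl c' x).mp hk1').1
      · exact (fc_inr k' x).mp hk1'
    constructor
    · intro hi
      have h1 := hk2 i (Finset.mem_filter.mpr ⟨Finset.mem_univ i, hi⟩)
      rcases i with c | a
      · rw [fc_inl] at hi ⊢
        exact ⟨h1, lt_of_le_of_lt hkx hi.2⟩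
      · rw [fc_inr] at hi ⊢
        exact h1
    · intro hi
      by_cases hik : i = k
      · rw [hik]
        exact hk1'
      · have hne : P.pos (mi i : JJ W C Z) ≠ P.pos (mi k : JJ W C Z) := fun hc =>
          hik (fc_mi_inj i k (h.a4 hc))
        rcases i with c | a
        · rw [fc_inl] at hi ⊢
          have h0 : P.pos (mi (Sum.inl c : Ch C Z) : JJ W C Z) = P.pm c := rfl
          rw [h0] at hne
          rcases k with c' | k'
          · have h1 : P.pos (mi (Sum.inl c' : Ch C Z) : JJ W C Z) = P.pm c' := rfl
            rw [h1] at hi hne hkx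
            have h2 := h.a6 c c' (lt_of_le_of_ne hi.1 hne) hi.2
            have h3 := ((fc_inl c' x).mp hk1').2
            exact ⟨by omega, by omega⟩
          · have h1 : P.pos (mi (Sum.inr k' : Ch C Z) : JJ W C Z) = P.pz k' := rfl
            rw [h1] at hi hne hkx
            exact absurd ⟨lt_of_le_of_ne hi.1 hne, hi.2⟩ (h.a7 c k')
        · rw [fc_inr] at hi ⊢
          exact hi.trans hkx
  · change g _ = g _
    congr 1
    ext i
    simp only [Finset.mem_filter, Finset.mem_univ, true_and]
    rw [hxy i]

theorem Ax.face_flow [Fintype W] [Fintype C] [Fintype Z] (h : P.Ax) (ph : ℕ → Option (Ch C Z))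
    (h1 : ∀ x, ph x = none ↔ ∀ i, P.chi i x = 0)
    (h2 : ∀ x k, ph x = some k → P.chi k x = 1 ∧
        ∀ i, P.chi i x = P.chi i (P.pos (mi k : JJ W C Z)))
    (h3 : ∀ x y, (∀ i, P.chi i x = P.chi i y) → ph x = ph y) (f : Option (Ch C Z)) :
    P.dg.Harm1 (fun j => (by classical exact if ph (P.en j) = f then (1 : ℤ) else 0) -
      (by classical exact if ph (P.pos j - 1) = f then (1 : ℤ) else 0)) := by
  classical
  have hlo : ∀ c, P.chi (Sum.inl c : Ch C Z) (P.lo none) ≠ 1 := by
    intro c hc
    rw [fc_inl] at hc
    have := (h.all_bey (.m c)).1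
    have h4 : P.pos (.m c : JJ W C Z) = P.pm c := rfl
    omega
  have hhi : ∀ c, P.chi (Sum.inl c : Ch C Z) (P.hi none - 1) ≠ 1 := by
    intro c hc
    rw [fc_inl] at hc
    have := (h.all_bey (.p c)).2
    have h4 : P.pos (.p c : JJ W C Z) = P.pp c := rfl
    omega
  refine h.flow_of (fun x => by classical exact if ph x = f then (1 : ℤ) else 0) ?_ ?_ ?_ ?_
  · intro p hp hl
    have : ph p = ph (p - 1) := h3 _ _ fun i => h.chi_tame i p hp hl
    simp only [this]
  · intro c
    have : ph (P.pp c) = ph (P.pm c - 1) := h3 _ _ fun i => (h.chi_pp i c).1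
    simp only [this]
  · intro c
    have : ph (P.pp c - 1) = ph (P.pm c) := h3 _ _ fun i => (h.chi_pp i c).2
    simp only [this]
  · by_cases hZ : Nonempty Z
    · obtain ⟨k⟩ := hZ
      have hu : (Finset.univ : Finset Z) = {k} := by
        ext k'
        simp [h.zz k' k]
      rw [hu, Finset.sum_singleton]
      have hz := h.all_bey (.z k : JJ W C Z)
      have hz0 : P.pos (.z k : JJ W C Z) = P.pz k := rfl
      have hz1 : P.lo none < P.pz k := hz.1
      have hz2 : P.pz k < P.hi none := hz.2
      have e1 : ph (P.pz k) = ph (P.hi none - 1) := by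
        apply h3
        intro i
        rw [fc_eq_iff]
        rcases i with c | k'
        · have hne : P.pm c ≠ P.pz k := fun hc => by
            have := h.a4 (show P.pos (.m c : JJ W C Z) = P.pos (.z k) from hc)
            injection this
          refine ⟨fun hc => ?_, fun hc => absurd hc (hhi c)⟩
          rw [fc_inl] at hc
          exact absurd ⟨lt_of_le_of_ne hc.1 hne, hc.2⟩ (h.a7 c k)
        · rw [h.zz k' k, fc_inr, fc_inr]
          omega
      have e2 : ph (P.pz k - 1) = ph (P.lo none) := by
        apply h3
        intro i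
        rw [fc_eq_iff]
        rcases i with c | k'
        · have hne : P.pp c ≠ P.pz k := fun hc => by
            have := h.a4 (show P.pos (.p c : JJ W C Z) = P.pos (.z k) from hc)
            injection this
          refine ⟨fun hc => ?_, fun hc => absurd hc (hlo c)⟩
          rw [fc_inl] at hc
          exact absurd ⟨by omega, by omega⟩ (h.a7 c k)
        · rw [h.zz k' k, fc_inr, fc_inr]
          omega
      simp only [e1, e2]
    · have hE : IsEmpty Z := not_nonempty_iff.mp hZ
      have e1 : ph (P.hi none - 1) = ph (P.lo none) := by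
        apply h3
        intro i
        rw [fc_eq_iff]
        rcases i with c | k'
        · exact ⟨fun hc => absurd hc (hhi c), fun hc => absurd hc (hlo c)⟩
        · exact (hE.false k').elim
      simp only [e1]
      rw [Finset.univ_eq_empty, Finset.sum_empty]
      by_cases hf : ph (P.lo none) = f
      · rw [if_pos hf, if_pos hf, sub_self]
      · rw [if_neg hf, if_neg hf, sub_self]

end PD

end GB
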