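import Pool.Agent.Helper95.GB.PL.Poten
import Pool.Agent.Helper95.GB.PL.Face

/-! # GB/PL/Main: planarity implies `PLprop` (stub, prove in place)

Proof.  Let `ω` be as in `PLprop`, `m i k = ω (mi i) (mi k)` (antisymmetric).  By `expand` (in the first variable for
fixed second one: `Harm2`; in the second variable by antisymmetry) `ω j j' = ∑ i, ∑ k, m i k * cyc i j * cyc k j'`.
So the local condition of `poten` holds.  Let `ph` be as in `exists_ph`, and
`F f j = [ph (en j) = f] - [ph (pos j - 1) = f]` for `f : Option Ch`; `Harm1 (F f)` by `face_flow`.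
For `f = some k` put `st f = pos (mi k)`; let `ins i none = 0`, `ins i (some k) = χ i (st k)`.  By (1), (2) of `exists_ph`:
`χ i x = ∑ f, [ph x = f] * ins i f`, so `cyc i j = ∑ f, ins i f * F f j`, and
`ω j j' = ∑ f, ∑ g, μ f g * F f j * F g j'`, `μ f g = ∑ i, ∑ k, m i k * ins i f * ins k g`; `μ (ph x) (ph y) = MM m x y`.
Let `a f = ∑ i, ins i f * MM m (st i) (st i - 1)`, so `a (ph x) = AA m x`.  Since `∑ f, F f j = 0`,
`ω j j' = ∑ f, ∑ g, μ' f g * F f j * F g j'` with `μ' f g = μ f g - (a f - a g)` (antisymmetric).  With an injective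
numbering `o` of `Option Ch`: `ω = ∑_{o f < o g} μ' f g • wedge (F f) (F g)` (the diagonal vanishes).
If `μ' f g ≠ 0` then `F f` and `F g` use different vertices: suppose `F f i ≠ 0`, `F g j ≠ 0`, `vt i = vt j = v`.  Then
`f = ph (en i)` or `f = ph (pos i - 1)`; in both cases `f = ph x` for a corner `x` of `v` (`Ax.pre` and (3)); similarly
`g = ph y`; `poten` gives `μ f g = MM m x y = AA m x - AA m y = a f - a g`, so `μ' f g = 0`.
Each `μ' f g • wedge (F f) (F g)` with `μ' f g ≠ 0` is in the closure (`AddSubgroup.zsmul_mem`).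
-/

set_option autoImplicit false

namespace GB

/-- indicator of equality -/
noncomputable def mainI {A : Type} (p q : A) : ℤ := by
  classical exact if p = q then 1 else 0

theorem mainI_self {A : Type} (p : A) : mainI p p = 1 := by
  unfold mainI
  exact if_pos rfl

theorem mainI_ne {A : Type} {p q : A} (h : p ≠ q) : mainI p q = 0 := by
  unfold mainI
  exact if_neg h

theorem mainI_eq {A : Type} {p q : A} (h : mainI p q ≠ 0) : p = q := by
  by_contra h1
  exact h (mainI_ne h1)

theorem mainI_sum {A : Type} [Fintype A] (p : A) (g : A → ℤ) :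
    ∑ q, mainI p q * g q = g p := by
  rw [Finset.sum_eq_single p, mainI_self, one_mul]
  · intro b _ hb
    rw [mainI_ne hb.symm, zero_mul]
  · intro h
    exact absurd (Finset.mem_univ _) h

/-- splitting a double sum with vanishing diagonal -/
theorem main_split {A : Type} [Fintype A] (o : A → ℕ) (ho : Function.Injective o)
    (T : A → A → ℤ) (hT : ∀ f, T f f = 0) :
    ∑ f, ∑ g, T f g = ∑ f, ∑ g, if o f < o g then T f g + T g f else 0 := by
  have h1 : ∀ f g, T f g = (if o f < o g then T f g else 0) + (if o g < o f then T f g else 0) := by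
    intro f g
    rcases lt_trichotomy (o f) (o g) with h | h | h
    · rw [if_pos h, if_neg (by omega), add_zero]
    · rw [if_neg (by omega), if_neg (by omega), ho h, hT]
      rfl
    · rw [if_neg (by omega), if_pos h, zero_add]
  have h2 : ∑ f, ∑ g, T f g = ∑ f, ∑ g, (if o f < o g then T f g else 0) +
      ∑ f, ∑ g, (if o g < o f then T f g else 0) := by
    rw [← Finset.sum_add_distrib]
    refine Finset.sum_congr rfl fun f _ => ?_
    rw [← Finset.sum_add_distrib]
    exact Finset.sum_congr rfl fun g _ => h1 f g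
  rw [h2, Finset.sum_comm (f := fun f g => if o g < o f then T f g else 0),
    ← Finset.sum_add_distrib]
  refine Finset.sum_congr rfl fun f _ => ?_
  rw [← Finset.sum_add_distrib]
  refine Finset.sum_congr rfl fun g _ => ?_
  split_ifs <;> simp

theorem main_prod {A : Type} [Fintype A] (a F G : A → ℤ) (hF : ∑ f, F f = 0)
    (hG : ∑ g, G g = 0) : ∑ f, ∑ g, (a f - a g) * F f * G g = 0 := by
  have h1 : ∀ f, ∑ g, (a f - a g) * F f * G g = a f * F f * ∑ g, G g - F f * ∑ g, a g * G g := by
    intro f
    rw [Finset.mul_sum, Finset.mul_sum, ← Finset.sum_sub_distrib]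
    exact Finset.sum_congr rfl fun g _ => by ring
  simp only [h1, hG, mul_zero, zero_sub]
  rw [Finset.sum_neg_distrib, ← Finset.sum_mul, hF, zero_mul, neg_zero]

theorem PD.Ax.plprop {W C Z : Type} {P : PD W C Z} [Fintype W] [Fintype C] [Fintype Z]
    (h : P.Ax) : P.dg.PLprop := by
  intro ω hω hH hloc
  obtain ⟨ph, p1, p2, p3⟩ := h.exists_ph
  -- coefficients
  let m : PD.Ch C Z → PD.Ch C Z → ℤ := fun i k => ω (PD.mi i) (PD.mi k)
  have hm : ∀ i k, m k i = - m i k := fun i k => hω _ _
  have hexp : ∀ j j', ω j j' = ∑ i, ∑ k, m i k * P.cyc i j * P.cyc k j' := by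
    intro j j'
    have e1 : ω j j' = ∑ i, ω (PD.mi i) j' * P.cyc i j :=
      h.expand (fun k => ω k j') (hH j') j
    rw [e1]
    refine Finset.sum_congr rfl fun i _ => ?_
    have e2 : ω (PD.mi i) j' = ∑ k, m i k * P.cyc k j' := by
      rw [hω j' (PD.mi i), h.expand (fun k => ω k (PD.mi i)) (hH _) j', ← Finset.sum_neg_distrib]
      refine Finset.sum_congr rfl fun k _ => ?_
      change -(m k i * _) = _
      rw [hm i k]
      ring
    rw [e2, Finset.sum_mul]
    exact Finset.sum_congr rfl fun k _ => by ring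
  have hpot := h.poten m hm fun j j' hjj => by
    rw [← hexp]
    exact hloc j j' hjj
  -- faces
  let F : Option (PD.Ch C Z) → JJ W C Z → ℤ := fun f j =>
    mainI (ph (P.en j)) f - mainI (ph (P.pos j - 1)) f
  have hF : ∀ f, P.dg.Harm1 (F f) := by
    intro f
    have e1 := h.face_flow ph p1 p2 p3 f
    have e2 : F f = fun j => (by classical exact if ph (P.en j) = f then (1 : ℤ) else 0) -
      (by classical exact if ph (P.pos j - 1) = f then (1 : ℤ) else 0) := by
      funext j
      change mainI (ph (P.en j)) f - mainI (ph (P.pos j - 1)) f = _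
      congr 1
      · by_cases hc : ph (P.en j) = f
        · rw [if_pos hc, hc, mainI_self]
        · rw [if_neg hc, mainI_ne hc]
      · by_cases hc : ph (P.pos j - 1) = f
        · rw [if_pos hc, hc, mainI_self]
        · rw [if_neg hc, mainI_ne hc]
    rw [e2]
    exact e1
  have hF0 : ∀ j, ∑ f, F f j = 0 := by
    intro j
    have e1 : ∀ p : Option (PD.Ch C Z), ∑ f, mainI p f = 1 := by
      intro p
      have := mainI_sum p (fun _ => (1 : ℤ))
      simpa using this
    change ∑ f, (mainI (ph (P.en j)) f - mainI (ph (P.pos j - 1)) f) = 0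
    rw [Finset.sum_sub_distrib, e1, e1, sub_self]
  -- values of the chords on the faces
  let ins : PD.Ch C Z → Option (PD.Ch C Z) → ℤ := fun i f =>
    match f with
    | none => 0
    | some k => P.chi i (P.pos (PD.mi k : JJ W C Z))
  have hins : ∀ i x, P.chi i x = ins i (ph x) := by
    intro i x
    rcases hx : ph x with _ | k
    · exact (p1 x).1 hx i
    · exact (p2 x k hx).2 i
  have hcyc : ∀ i j, P.cyc i j = ∑ f, ins i f * F f j := by
    intro i j
    have e1 : ∀ x, ∑ f, ins i f * mainI (ph x) f = P.chi i x := by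
      intro x
      rw [hins i x, ← mainI_sum (ph x) (ins i)]
      exact Finset.sum_congr rfl fun f _ => mul_comm _ _
    change P.chi i (P.en j) - P.chi i (P.pos j - 1) =
      ∑ f, ins i f * (mainI (ph (P.en j)) f - mainI (ph (P.pos j - 1)) f)
    simp only [mul_sub]
    rw [Finset.sum_sub_distrib, e1, e1]
  let mu : Option (PD.Ch C Z) → Option (PD.Ch C Z) → ℤ := fun f g =>
    ∑ i, ∑ k, m i k * ins i f * ins k g
  have hmu : ∀ x y, mu (ph x) (ph y) = P.MM m x y := by
    intro x y
    change ∑ i, ∑ k, m i k * ins i (ph x) * ins k (ph y) = ∑ i, ∑ k, m i k * P.chi i x * P.chi k y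
    simp only [hins]
  have hmua : ∀ f g, mu g f = - mu f g := by
    intro f g
    change ∑ i, ∑ k, m i k * ins i g * ins k f = - ∑ i, ∑ k, m i k * ins i f * ins k g
    rw [Finset.sum_comm, ← Finset.sum_neg_distrib]
    refine Finset.sum_congr rfl fun i _ => ?_
    rw [← Finset.sum_neg_distrib]
    refine Finset.sum_congr rfl fun k _ => ?_
    rw [hm i k]
    ring
  let a : Option (PD.Ch C Z) → ℤ := fun f =>
    ∑ i, ins i f * P.MM m (P.pos (PD.mi i : JJ W C Z)) (P.pos (PD.mi i : JJ W C Z) - 1)
  have ha : ∀ x, a (ph x) = P.AA m x := by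
    intro x
    change ∑ i, ins i (ph x) * _ = ∑ i, P.chi i x * _
    simp only [hins]
  let nu : Option (PD.Ch C Z) → Option (PD.Ch C Z) → ℤ := fun f g => mu f g - (a f - a g)
  have hnua : ∀ f g, nu g f = - nu f g := by
    intro f g
    change mu g f - (a g - a f) = -(mu f g - (a f - a g))
    rw [hmua f g]
    ring
  have hω1 : ∀ j j', ω j j' = ∑ f, ∑ g, nu f g * F f j * F g j' := by
    intro j j'
    have e1 : ω j j' = ∑ f, ∑ g, mu f g * F f j * F g j' := by
      rw [hexp]
      have e2 : ∀ i k, m i k * P.cyc i j * P.cyc k j' =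
          ∑ f, ∑ g, m i k * ins i f * ins k g * F f j * F g j' := by
        intro i k
        rw [hcyc, hcyc, mul_assoc, Finset.sum_mul_sum, Finset.mul_sum]
        refine Finset.sum_congr rfl fun f _ => ?_
        rw [Finset.mul_sum]
        exact Finset.sum_congr rfl fun g _ => by ring
      simp only [e2]
      have e3 : ∀ f g, mu f g * F f j * F g j' =
          ∑ i, ∑ k, m i k * ins i f * ins k g * F f j * F g j' := by
        intro f g
        change (∑ i, ∑ k, m i k * ins i f * ins k g) * F f j * F g j' = _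
        rw [Finset.sum_mul, Finset.sum_mul]
        refine Finset.sum_congr rfl fun i _ => ?_
        rw [Finset.sum_mul, Finset.sum_mul]
      simp only [e3]
      calc ∑ i, ∑ k, ∑ f, ∑ g, m i k * ins i f * ins k g * F f j * F g j'
          = ∑ i, ∑ f, ∑ k, ∑ g, m i k * ins i f * ins k g * F f j * F g j' :=
            Finset.sum_congr rfl fun i _ => Finset.sum_comm
        _ = ∑ f, ∑ i, ∑ k, ∑ g, m i k * ins i f * ins k g * F f j * F g j' := Finset.sum_comm
        _ = ∑ f, ∑ i, ∑ g, ∑ k, m i k * ins i f * ins k g * F f j * F g j' :=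
            Finset.sum_congr rfl fun f _ => Finset.sum_congr rfl fun i _ => Finset.sum_comm
        _ = ∑ f, ∑ g, ∑ i, ∑ k, m i k * ins i f * ins k g * F f j * F g j' :=
            Finset.sum_congr rfl fun f _ => Finset.sum_comm
    have e4 := main_prod a (fun f => F f j) (fun g => F g j') (hF0 j) (hF0 j')
    have e5 : ∑ f, ∑ g, nu f g * F f j * F g j' =
        ∑ f, ∑ g, mu f g * F f j * F g j' - ∑ f, ∑ g, (a f - a g) * F f j * F g j' := by
      rw [← Finset.sum_sub_distrib]
      refine Finset.sum_congr rfl fun f _ => ?_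
      rw [← Finset.sum_sub_distrib]
      refine Finset.sum_congr rfl fun g _ => ?_
      change (mu f g - (a f - a g)) * F f j * F g j' = _
      ring
    rw [e5, e4, sub_zero, e1]
  -- the ordering
  obtain ⟨o, ho⟩ : ∃ o : Option (PD.Ch C Z) → ℕ, Function.Injective o :=
    ⟨fun f => (Fintype.equivFin _ f : ℕ), fun f g hfg =>
      (Fintype.equivFin _).injective (Fin.ext hfg)⟩
  have hω2 : ω = ∑ f, ∑ g, if o f < o g then nu f g • wedge (F f) (F g) else 0 := by
    funext j j'
    rw [hω1, main_split o ho (fun f g => nu f g * F f j * F g j')]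
    · rw [Finset.sum_apply, Finset.sum_apply]
      refine Finset.sum_congr rfl fun f _ => ?_
      rw [Finset.sum_apply, Finset.sum_apply]
      refine Finset.sum_congr rfl fun g _ => ?_
      split_ifs with hfg
      · change nu f g * F f j * F g j' + nu g f * F g j * F f j' =
          nu f g * (F f j * F g j' - F g j * F f j')
        rw [hnua f g]
        ring
      · rfl
    · intro f
      have e1 := hnua f f
      have e2 : nu f f = 0 := by omega
      rw [e2, zero_mul, zero_mul]
  -- corners
  have hcor : ∀ f j, F f j ≠ 0 → ∃ x, P.Cor (P.vt j) x ∧ ph x = f := by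
    intro f j hf
    by_cases e1 : mainI (ph (P.en j)) f = 0
    · have e2 : mainI (ph (P.pos j - 1)) f ≠ 0 := by
        intro e3
        apply hf
        change mainI (ph (P.en j)) f - mainI (ph (P.pos j - 1)) f = 0
        rw [e1, e3, sub_self]
      obtain ⟨x, x1, -, x3⟩ := h.pre j
      exact ⟨x, x1, (p3 _ _ x3).trans (mainI_eq e2)⟩
    · exact ⟨P.en j, Or.inr ⟨j, rfl, rfl⟩, mainI_eq e1⟩
  rw [hω2]
  refine AddSubgroup.sum_mem _ fun f _ => AddSubgroup.sum_mem _ fun g _ => ?_
  split_ifs
  · by_cases hn : nu f g = 0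
    · rw [hn, zero_smul]
      exact AddSubgroup.zero_mem _
    · refine AddSubgroup.zsmul_mem _ (AddSubgroup.subset_closure ?_) _
      refine ⟨F f, F g, hF f, hF g, fun i j hij => ?_, rfl⟩
      by_contra hc
      rw [not_or] at hc
      obtain ⟨x, hx, rfl⟩ := hcor f i hc.1
      obtain ⟨y, hy, rfl⟩ := hcor g j hc.2
      have hij' : P.vt i = P.vt j := hij
      rw [← hij'] at hy
      have e1 := hpot (P.vt i) x y hx hy
      apply hn
      change mu (ph x) (ph y) - (a (ph x) - a (ph y)) = 0
      rw [hmu, ha, ha, e1, sub_self]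
  · exact AddSubgroup.zero_mem _

end GB
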