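import Pool.Agent.Helper95.GB.PL.Ord

/-! # GB/PL/Misc: `Qdata`, `Conn`, `TwoEnds` for `PD` (stub, prove in place)

`qdata`: `q r = 0`; `q (t a) = ∑_{b} [lo b ≤ lo a ∧ hi a ≤ hi b] single (t b)` (sum over the ancestors-or-equal `b` of `a`);
`q (c c') = q (be (mv c')) + single (m c')`.  Recursion: `q (t a) = q (be (par a)) + single (t a)` (an ancestor-or-equal
`b ≠ a` of `a` is an ancestor-or-equal of `par a`: `bey (some b) (t a)` and `bey_iff`).  So by strong induction on
`lo (some a)`: `∑ k, q (t a) k * (u (ed k) - u (be (vt k))) = (u (be (par a)) - u r) + (u (t a) - u (be (par a)))`.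
Alternatively define `q` by well-founded recursion on `lo`.

`twoEnds`: the half-edges of `r` are `inr none` and `inl (z k)` (unique by `zz`), those of `t a` are `inr (some a)`,
`inl (t a)`, those of `c c'` are `inl (m c')`, `inl (p c')`.

`conn`: let `v` be a vertex.  (i) `be v` is connected to `r` by `Adj v`: for `v = none` trivial; for `v = some a`:
`t a` is adjacent to `be (par a)` through `k = t a` (`vt k = par a ≠ some a`), and so on down to `r` (the vertices on
the way are proper ancestors of `v`, so they are different from `v`: smaller `lo`).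
(ii) for an edge `e = t a`: by strong induction on `lo (some a)`: if `par a = v` take `e' = t a = ed (t a)`; otherwise
`be (par a)` is `Adj v`-adjacent to `t a`, and `be (par a) = r` (then (i)) or `be (par a) = t b` with
`par a = some b`, `lo (some b) < lo (some a)`, induction.  `e = r`: (i).
(iii) for `e = c c'`: if `mv c' = v` take `e' = e`; otherwise it is adjacent to `be (mv c')`, use (ii).
-/

set_option autoImplicit false

namespace GB

namespace PD

variable {W C Z : Type} {P : PD W C Z}

private theorem Ax.qv [Fintype W] [Fintype C] [Fintype Z] (h : P.Ax) (v : Option W) :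
    ∃ q : JJ W C Z → ℤ, ∀ u : EE W C → ℤ, ∑ k, q k * (u (ed k) - u (be (P.vt k))) = u (be v) - u .r := by
  classical
  induction hn : P.lo v using Nat.strong_induction_on generalizing v with
  | _ n ih =>
    rcases v with _ | a
    · refine ⟨0, fun u => ?_⟩
      simp [be]
    · obtain ⟨q, hq⟩ := ih _ (hn ▸ h.par_lt a) (P.par a) rfl
      refine ⟨fun k => q k + if k = .t a then 1 else 0, fun u => ?_⟩
      simp only [add_mul, Finset.sum_add_distrib, ite_mul, one_mul, zero_mul, Finset.sum_ite_eq',
        Finset.mem_univ, if_true]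
      rw [hq u]
      simp only [ed, be, vt]
      ring

theorem Ax.qdata [Fintype W] [Fintype C] [Fintype Z] (h : P.Ax) :
    ∃ q : EE W C → JJ W C Z → ℤ, P.dg.Qdata .r q := by
  classical
  have h1 : ∀ e : EE W C, ∃ q : JJ W C Z → ℤ, (e = .r → q = 0) ∧
      ∀ u : EE W C → ℤ, ∑ k, q k * (u (ed k) - u (be (P.vt k))) = u e - u .r := by
    intro e
    rcases e with _ | a | c
    · refine ⟨0, fun _ => rfl, fun u => ?_⟩
      simp
    · obtain ⟨q, hq⟩ := h.qv (some a)
      exact ⟨q, fun h => (nomatch h), hq⟩
    · obtain ⟨q, hq⟩ := h.qv (P.mv c)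
      refine ⟨fun k => q k + if k = .m c then 1 else 0, fun h => (nomatch h), fun u => ?_⟩
      simp only [add_mul, Finset.sum_add_distrib, ite_mul, one_mul, zero_mul, Finset.sum_ite_eq',
        Finset.mem_univ, if_true]
      rw [hq u]
      simp only [ed, vt]
      ring
  choose q hq0 hq using h1
  exact ⟨q, hq0 _ rfl, fun e u => hq e u⟩

/-- the side of a half-edge -/
private def side : JJ W C Z ⊕ Option W → Bool
  | .inl (.t _) => false
  | .inl (.m _) => false
  | .inl (.p _) => true
  | .inl (.z _) => false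
  | .inr _ => true

private theorem Ax.side_inj (h : P.Ax) {d d' : JJ W C Z ⊕ Option W} (he : P.dg.de d = P.dg.de d')
    (hs : side d = side d') : d = d' := by
  rcases d with (a | c | c | k) | (_ | a) <;> rcases d' with (a' | c' | c' | k') | (_ | a') <;>
    simp only [DG.de, dg, ed, be, side, reduceCtorEq, EE.t.injEq, EE.c.injEq, Bool.false_eq_true,
      Bool.true_eq_false] at he hs <;>
    first
    | rfl
    | (subst he; rfl)
    | (rw [h.zz k k'])

theorem Ax.twoEnds (h : P.Ax) : P.dg.TwoEnds := by
  intro d d' d'' h1 h2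
  have a1 := h.side_inj h1
  have a2 := h.side_inj h2
  have a3 := h.side_inj (h1.trans h2)
  cases hd : side d <;> cases hd' : side d' <;> cases hd'' : side d'' <;>
    simp only [hd, hd', hd'', reduceCtorEq, forall_const, false_implies] at a1 a2 a3 <;>
    tauto

private theorem Ax.toRoot (h : P.Ax) (v : Option W) (x : Option W) (hx : P.lo x ≤ P.lo v) :
    Relation.ReflTransGen (P.dg.Adj v) (be x) .r := by
  induction hn : P.lo x using Nat.strong_induction_on generalizing x with
  | _ n ih =>
    rcases x with _ | a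
    · exact Relation.ReflTransGen.refl
    · have h1 := h.par_lt a
      refine Relation.ReflTransGen.head ?_ (ih _ (hn ▸ h1) (P.par a) (h1.le.trans hx) rfl)
      refine ⟨.t a, ?_, Or.inl ⟨rfl, rfl⟩⟩
      intro h2
      have h3 : P.par a = v := h2
      rw [h3] at h1
      omega

private theorem Ax.connV (h : P.Ax) (v w : Option W) :
    ∃ e', (e' = be v ∨ ∃ k : JJ W C Z, P.vt k = v ∧ e' = ed k) ∧
      Relation.ReflTransGen (P.dg.Adj v) e' (be w) := by
  induction hn : P.lo w using Nat.strong_induction_on generalizing w with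
  | _ n ih =>
    rcases w with _ | a
    · exact ⟨be v, Or.inl rfl, h.toRoot v v le_rfl⟩
    · by_cases hv : P.par a = v
      · exact ⟨.t a, Or.inr ⟨.t a, hv, rfl⟩, Relation.ReflTransGen.refl⟩
      · obtain ⟨e', h1, h2⟩ := ih _ (hn ▸ h.par_lt a) (P.par a) rfl
        exact ⟨e', h1, h2.tail ⟨.t a, hv, Or.inr ⟨rfl, rfl⟩⟩⟩

theorem Ax.conn (h : P.Ax) : P.dg.Conn := by
  intro v e
  rcases e with _ | a | c
  · exact h.connV v none
  · exact h.connV v (some a)
  · by_cases hv : P.mv c = v
    · exact ⟨.c c, Or.inr ⟨.m c, hv, rfl⟩, Relation.ReflTransGen.refl⟩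
    · obtain ⟨e', h1, h2⟩ := h.connV v (P.mv c)
      exact ⟨e', h1, h2.tail ⟨.m c, hv, Or.inr ⟨rfl, rfl⟩⟩⟩

end PD

end GB
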