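import Pool.Agent.Helper95.GB.PL.Tel

/-! # GB/PL/Basis: fundamental cycles and faces are flows (stub, prove in place)

`χ i x` is the indicator of the open interval of the chord `i` at the gap `x` (between positions `x` and `x+1`):
`χ (inl c) x = [pm c ≤ x < pp c]`, `χ (inr k) x = [pz k ≤ x]`.

`flow_of`: let `ψ` be tame with `ψ (pp c) = ψ (pm c - 1)`, `ψ (pp c - 1) = ψ (pm c)` for all chords `c`, and
`∑ k : Z, (ψ (pz k) - ψ (pz k - 1)) = ψ (hi none - 1) - ψ (lo none)`.  Then
`F j = ψ (en j) - ψ (pos j - 1)` is a flow (`Harm1`).  Proof: group the sum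
`∑ k, F k * (u (ed k) - u (be (vt k)))` by edges.  The coefficient of `u (c c')` is `F (m c') + F (p c') = 0`; that of
`u (t a)` is `F (t a) - ∑_{k at some a} F k = 0` by `tel`, `tel_t`; that of `u r` is `∑ k : Z, F (z k) - ∑_{k at none} F k = 0`
by `tel` and the hypothesis.

`cyc_flow`: `ψ = χ i` satisfies the hypotheses: tame is clear; for `i = inl c'`, `c ≠ c'`: the intervals of `c` and `c'` are
nested or disjoint (`a6`, `a4`), in each case `χ (pp c) = χ (pm c - 1)` and `χ (pp c - 1) = χ (pm c)`; for `c = c'` both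
`0 = 0`, `1 = 1`.  For `i = inr k`: `a7` (`pz k` is not inside the interval of `c`).  Last condition: for `i = inl c`:
`χ (pz k) = χ (pz k - 1)` (`a7`), `χ (hi none - 1) = 0`, `χ (lo none) = 0` (`all_bey`); for `i = inr k`: `1 = 1 - 0` (`zz`).

`cyc_mi`: `cyc i (mi i') = [i = i']` by `a4`.
`expand`: let `n` be a flow and `n' = n - ∑ i, n (mi i) * cyc i`.  Then `n'` is a flow, `n' (m c) = 0`, `n' (z k) = 0`.
Taking `u` the indicator of the edge of `c`: `n' (m c) + n' (p c) = 0`, so `n' (p c) = 0`.  Taking `u` the indicator of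
the edge `t a`: `n' (t a) = ∑_{k at some a} n' k = ∑_{b, par b = some a} n' (t b)`; by strong induction on
`hi none - lo (some a)` (children have larger `lo`) all `n' (t a) = 0`.
-/

set_option autoImplicit false

namespace GB

namespace PD

variable {W C Z : Type} (P : PD W C Z)

/-- the gap `x` is inside the chord `i` -/
noncomputable def chi (i : Ch C Z) (x : ℕ) : ℤ := by
  classical exact match i with
    | .inl c => if P.pm c ≤ x ∧ x < P.pp c then 1 else 0
    | .inr k => if P.pz k ≤ x then 1 else 0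

/-- fundamental cycles -/
noncomputable def cyc (i : Ch C Z) (j : JJ W C Z) : ℤ := P.chi i (P.en j) - P.chi i (P.pos j - 1)

variable {P}

theorem chi_inl (c : C) (x : ℕ) :
    P.chi (.inl c) x = (by classical exact if P.pm c ≤ x ∧ x < P.pp c then 1 else 0) := rfl

theorem chi_inr (k : Z) (x : ℕ) :
    P.chi (.inr k) x = (by classical exact if P.pz k ≤ x then 1 else 0) := rfl

theorem Ax.pos_pos (h : P.Ax) (j : JJ W C Z) : 1 ≤ P.pos j := by
  have := (h.a1 j).1
  omega

theorem Ax.pm_pos (h : P.Ax) (c : C) : 1 ≤ P.pm c := h.pos_pos (.m c)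
theorem Ax.pp_pos (h : P.Ax) (c : C) : 1 ≤ P.pp c := h.pos_pos (.p c)
theorem Ax.pz_pos (h : P.Ax) (k : Z) : 1 ≤ P.pz k := h.pos_pos (.z k)
theorem Ax.mm (h : P.Ax) {c c' : C} (hc : c ≠ c') : P.pm c ≠ P.pm c' := fun e =>
  hc (by have h1 : (JJ.m c : JJ W C Z) = .m c' := h.a4 e
         injection h1)
theorem Ax.ppne (h : P.Ax) {c c' : C} (hc : c ≠ c') : P.pp c ≠ P.pp c' := fun e =>
  hc (by have h1 : (JJ.p c : JJ W C Z) = .p c' := h.a4 e
         injection h1)
theorem Ax.mp (h : P.Ax) (c c' : C) : P.pm c ≠ P.pp c' := fun e => by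
  have h1 : (JJ.m c : JJ W C Z) = .p c' := h.a4 e
  cases h1
theorem Ax.mz (h : P.Ax) (c : C) (k : Z) : P.pm c ≠ P.pz k := fun e => by
  have h1 : (JJ.m c : JJ W C Z) = .z k := h.a4 e
  cases h1
theorem Ax.pzne (h : P.Ax) (c : C) (k : Z) : P.pp c ≠ P.pz k := fun e => by
  have h1 : (JJ.p c : JJ W C Z) = .z k := h.a4 e
  cases h1

theorem Ax.chi_tame (h : P.Ax) (i : Ch C Z) : P.Tame (P.chi i) := by
  classical
  intro p hp hx
  cases i with
  | inl c =>
    have h1 : P.pm c ≠ p := hx (.m c) (by simp)
    have h2 : P.pp c ≠ p := hx (.p c) (by simp)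
    rw [chi_inl, chi_inl]
    split_ifs <;> first | rfl | (exfalso; omega)
  | inr k =>
    have h1 : P.pz k ≠ p := hx (.z k) (by simp)
    rw [chi_inr, chi_inr]
    split_ifs <;> first | rfl | (exfalso; omega)

theorem Ax.chi_pp (h : P.Ax) (i : Ch C Z) (c : C) :
    P.chi i (P.pp c) = P.chi i (P.pm c - 1) ∧ P.chi i (P.pp c - 1) = P.chi i (P.pm c) := by
  classical
  have h0 := h.pm_pos c
  have h1 := h.pp_pos c
  have h2 := (h.a5 c).2.2
  cases i with
  | inl c' =>
    rw [chi_inl, chi_inl, chi_inl, chi_inl]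
    by_cases hc : c = c'
    · subst hc
      constructor <;> split_ifs <;> first | rfl | (exfalso; omega)
    · have h3 := h.mm hc
      have h4 := h.ppne hc
      have h5 := h.mp c c'
      have h6 := h.mp c' c
      have h7 := h.a6 c c'
      have h8 := h.a6 c' c
      have h9 := (h.a5 c').2.2
      constructor <;> split_ifs <;> first | rfl | (exfalso; omega)
  | inr k =>
    rw [chi_inr, chi_inr, chi_inr, chi_inr]
    have h3 := h.mz c k
    have h4 := h.pzne c k
    have h5 := h.a7 c k
    constructor <;> split_ifs <;> first | rfl | (exfalso; omega)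

/-- the half-edges as a sum type -/
def jjEquiv (W C Z : Type) : W ⊕ C ⊕ C ⊕ Z ≃ JJ W C Z where
  toFun := fun
    | .inl a => .t a
    | .inr (.inl c) => .m c
    | .inr (.inr (.inl c)) => .p c
    | .inr (.inr (.inr k)) => .z k
  invFun := fun
    | .t a => .inl a
    | .m c => .inr (.inl c)
    | .p c => .inr (.inr (.inl c))
    | .z k => .inr (.inr (.inr k))
  left_inv := by rintro (a | c | c | k) <;> rfl
  right_inv := by rintro (a | c | c | k) <;> rfl

theorem sum_JJ [Fintype W] [Fintype C] [Fintype Z] (g : JJ W C Z → ℤ) :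
    ∑ j, g j = ∑ a, g (.t a) + (∑ c, g (.m c) + (∑ c, g (.p c) + ∑ k, g (.z k))) := by
  rw [← (jjEquiv W C Z).sum_comp g, Fintype.sum_sum_type, Fintype.sum_sum_type,
    Fintype.sum_sum_type]
  rfl

theorem Ax.flow_of [Fintype W] [Fintype C] [Fintype Z] (h : P.Ax) (ψ : ℕ → ℤ)
    (hψ : P.Tame ψ) (h1 : ∀ c, ψ (P.pp c) = ψ (P.pm c - 1))
    (h2 : ∀ c, ψ (P.pp c - 1) = ψ (P.pm c))
    (h3 : ∑ k : Z, (ψ (P.pz k) - ψ (P.pz k - 1)) = ψ (P.hi none - 1) - ψ (P.lo none)) :
    P.dg.Harm1 (fun j => ψ (P.en j) - ψ (P.pos j - 1)) := by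
  classical
  intro u
  simp only [mul_sub, Finset.sum_sub_distrib]
  rw [sub_eq_zero]
  have hr : ∑ k, (ψ (P.en k) - ψ (P.pos k - 1)) * u (P.dg.be (P.dg.vt k)) =
      ∑ v : Option W, (ψ (P.hi v - 1) - ψ (P.lo v)) * u (be v) := by
    have e1 : ∀ v : Option W, (ψ (P.hi v - 1) - ψ (P.lo v)) * u (be v) =
        ∑ k, (if P.vt k = v then (ψ (P.en k) - ψ (P.pos k - 1)) * u (be v) else 0) := by
      intro v
      rw [← h.tel ψ hψ v, Finset.sum_mul]
      refine Finset.sum_congr rfl fun k _ => ?_
      split_ifs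
      · rfl
      · rw [zero_mul]
    simp only [e1]
    rw [Finset.sum_comm]
    refine Finset.sum_congr rfl fun k _ => ?_
    rw [Finset.sum_ite_eq, if_pos (Finset.mem_univ _)]
    rfl
  rw [hr, Fintype.sum_option, sum_JJ]
  have e1 : ∀ a : W, (ψ (P.en (.t a)) - ψ (P.pos (.t a) - 1)) * u (P.dg.ed (.t a)) =
      (ψ (P.hi (some a) - 1) - ψ (P.lo (some a))) * u (be (some a)) := fun a => by
    rw [← h.tel_t ψ hψ a]
    rfl
  have e2 : ∑ c : C, (ψ (P.en (.m c)) - ψ (P.pos (.m c) - 1)) * u (P.dg.ed (.m c)) +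
      ∑ c : C, (ψ (P.en (.p c)) - ψ (P.pos (.p c) - 1)) * u (P.dg.ed (.p c)) = 0 := by
    rw [← Finset.sum_add_distrib]
    refine Finset.sum_eq_zero fun c _ => ?_
    change (ψ (P.pm c) - ψ (P.pm c - 1)) * u (.c c) + (ψ (P.pp c) - ψ (P.pp c - 1)) * u (.c c) = 0
    rw [h1, h2]
    ring
  have e3 : ∑ k : Z, (ψ (P.en (.z k)) - ψ (P.pos (.z k) - 1)) * u (P.dg.ed (.z k)) =
      (ψ (P.hi none - 1) - ψ (P.lo none)) * u (be none) := by
    rw [← h3, Finset.sum_mul]
    rfl
  simp only [e1]
  rw [e3, ← add_assoc (∑ c : C, (ψ (P.en (.m c)) - ψ (P.pos (.m c) - 1)) * u (P.dg.ed (.m c))),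
    e2, zero_add, add_comm]

theorem Ax.cyc_flow [Fintype W] [Fintype C] [Fintype Z] (h : P.Ax) (i : Ch C Z) :
    P.dg.Harm1 (P.cyc i) := by
  classical
  refine h.flow_of (P.chi i) (h.chi_tame i) (fun c => (h.chi_pp i c).1)
    (fun c => (h.chi_pp i c).2) ?_
  cases i with
  | inl c =>
    have e1 : ∀ k : Z, P.chi (.inl c) (P.pz k) - P.chi (.inl c) (P.pz k - 1) = 0 := by
      intro k
      have h3 := h.mz c k
      have h4 := h.pzne c k
      have h5 := h.a7 c k
      have h6 := h.pz_pos k
      rw [chi_inl, chi_inl]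
      split_ifs <;> first | rfl | (exfalso; omega)
    rw [Finset.sum_eq_zero fun k _ => e1 k, chi_inl, chi_inl]
    have h1 : P.lo none < P.pm c := (h.all_bey (.m c)).1
    have h2 : P.pp c < P.hi none := (h.all_bey (.p c)).2
    split_ifs <;> first | rfl | (exfalso; omega)
  | inr k =>
    rw [Fintype.sum_eq_single k fun k' hk' => absurd (h.zz k' k) hk']
    have h6 := h.pz_pos k
    have h1 : P.lo none < P.pz k := (h.all_bey (.z k)).1
    have h2 : P.pz k < P.hi none := (h.all_bey (.z k)).2
    rw [chi_inr, chi_inr, chi_inr, chi_inr]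
    split_ifs <;> first | rfl | (exfalso; omega)

theorem Ax.cyc_mi (h : P.Ax) (i i' : Ch C Z) :
    P.cyc i (mi i') = (by classical exact if i = i' then 1 else 0) := by
  classical
  cases i with
  | inl c =>
    cases i' with
    | inl c' =>
      change P.chi (.inl c) (P.pm c') - P.chi (.inl c) (P.pm c' - 1) = _
      have h0 := h.pm_pos c'
      have h2 := (h.a5 c).2.2
      rw [chi_inl, chi_inl]
      by_cases hc : c = c'
      · subst hc
        rw [if_pos rfl]
        split_ifs <;> first | rfl | (exfalso; omega)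
      · rw [if_neg (fun e => hc (Sum.inl_injective e))]
        have h3 := h.mm hc
        have h4 := h.mp c' c
        split_ifs <;> first | rfl | (exfalso; omega)
    | inr k =>
      change P.chi (.inl c) (P.pz k) - P.chi (.inl c) (P.pz k - 1) = _
      rw [if_neg (by simp), chi_inl, chi_inl]
      have h3 := h.mz c k
      have h4 := h.pzne c k
      have h6 := h.pz_pos k
      split_ifs <;> first | rfl | (exfalso; omega)
  | inr k =>
    cases i' with
    | inl c =>
      change P.chi (.inr k) (P.pm c) - P.chi (.inr k) (P.pm c - 1) = _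
      rw [if_neg (by simp), chi_inr, chi_inr]
      have h3 := h.mz c k
      have h6 := h.pm_pos c
      split_ifs <;> first | rfl | (exfalso; omega)
    | inr k' =>
      have hk : k = k' := h.zz k k'
      subst hk
      change P.chi (.inr k) (P.pz k) - P.chi (.inr k) (P.pz k - 1) = _
      rw [if_pos rfl, chi_inr, chi_inr]
      have h6 := h.pz_pos k
      split_ifs <;> first | rfl | (exfalso; omega)

theorem Ax.expand [Fintype W] [Fintype C] [Fintype Z] (h : P.Ax) (n : JJ W C Z → ℤ)
    (hn : P.dg.Harm1 n) (j : JJ W C Z) : n j = ∑ i : Ch C Z, n (mi i) * P.cyc i j := by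
  classical
  obtain ⟨n', hn'⟩ : ∃ n' : JJ W C Z → ℤ, n' = fun j => n j - ∑ i : Ch C Z, n (mi i) * P.cyc i j :=
    ⟨_, rfl⟩
  have hflow : ∀ u : EE W C → ℤ, ∑ k, n' k * (u (ed k) - u (be (P.vt k))) = 0 := by
    intro u
    have h1 : ∑ k, n k * (u (ed k) - u (be (P.vt k))) = 0 := hn u
    have h2 : ∀ i : Ch C Z, ∑ k, P.cyc i k * (u (ed k) - u (be (P.vt k))) = 0 := fun i =>
      h.cyc_flow i u
    rw [hn']
    simp only [sub_mul, Finset.sum_sub_distrib, Finset.sum_mul]
    rw [h1, zero_sub, neg_eq_zero, Finset.sum_comm]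
    refine Finset.sum_eq_zero fun i _ => ?_
    simp only [mul_assoc]
    rw [← Finset.mul_sum, h2 i, mul_zero]
  have hmi : ∀ i', n' (mi i') = 0 := by
    intro i'
    rw [hn']
    simp only [h.cyc_mi, mul_ite, mul_one, mul_zero]
    rw [Finset.sum_ite_eq', if_pos (Finset.mem_univ _), sub_self]
  have hm : ∀ c, n' (.m c) = 0 := fun c => hmi (.inl c)
  have hz : ∀ k, n' (.z k) = 0 := fun k => hmi (.inr k)
  have hp : ∀ c, n' (.p c) = 0 := by
    intro c
    have h1 := hflow fun e => if e = .c c then 1 else 0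
    rw [sum_JJ] at h1
    have hb : ∀ v : Option W, (be v : EE W C) ≠ .c c := fun v => by
      cases v <;> simp [be]
    simp only [hm, hz, zero_mul, Finset.sum_const_zero, add_zero, zero_add, hb, if_false,
      sub_zero, ed] at h1
    simpa using h1
  have ht : ∀ (N : ℕ) (a : W), P.hi none - P.lo (some a) = N → n' (.t a) = 0 := by
    intro N
    induction N using Nat.strong_induction_on with
    | _ N ih =>
      intro a ha
      have h1 := hflow fun e => if e = .t a then 1 else 0
      rw [sum_JJ] at h1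
      simp only [hm, hz, hp, zero_mul, Finset.sum_const_zero, add_zero] at h1
      have h2 : ∀ b : W, n' (.t b) * ((if (ed (.t b : JJ W C Z) : EE W C) = .t a then 1 else 0) -
          (if (be (P.vt (.t b)) : EE W C) = .t a then 1 else 0)) =
          if b = a then n' (.t b) else 0 := by
        intro b
        have e1 : ((ed (.t b : JJ W C Z) : EE W C) = .t a) ↔ b = a := by simp [ed]
        by_cases hb : (be (P.vt (.t b)) : EE W C) = .t a
        · have hpar : P.par b = some a := by
            cases hv : P.par b with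
            | none =>
              have : P.vt (.t b) = none := hv
              rw [this] at hb
              simp [be] at hb
            | some a' =>
              have : P.vt (.t b) = some a' := hv
              rw [this] at hb
              simp only [be, EE.t.injEq] at hb
              rw [hb]
          have h3 := h.par_lt b
          rw [hpar] at h3
          have h4 : P.lo (some b) < P.hi none := by
            have := h.a0 (some b)
            have := h.hi_le_none (some b)
            omega
          have h5 := ih (P.hi none - P.lo (some b)) (by omega) b rfl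
          rw [h5]
          simp
        · rw [if_neg hb, sub_zero]
          simp only [e1]
          split_ifs <;> simp
      rw [Finset.sum_congr rfl fun b _ => h2 b] at h1
      simpa using h1
  have hall : n' j = 0 := by
    cases j with
    | t a => exact ht _ a rfl
    | m c => exact hm c
    | p c => exact hp c
    | z k => exact hz k
  rw [hn'] at hall
  exact sub_eq_zero.1 hall

end PD

end GB
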