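import Pool.Agent.Helper95.GB.PL.Basis

/-! # GB/PL/Poten: the potential (stub, prove in place)

Let `m : Ch → Ch → ℤ` be antisymmetric, `M x y = ∑ i, ∑ k, m i k * χ i x * χ k y` (so `M y x = - M x y`), `st i` the
position of the minus end of `i`, and `A x = ∑ i, χ i x * M (st i) (st i - 1)`.
Hypothesis (local condition): for `j, j'` at the same vertex `∑ i, ∑ k, m i k * cyc i j * cyc k j' = 0`, that is
`M (en j) (en j') - M (en j) (pos j' - 1) - M (pos j - 1) (en j') + M (pos j - 1) (pos j' - 1) = 0`.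

Corners of `v`: `lo v` and the `en j` for `j` at `v`.  Claim: `M x y = A x - A y` for corners `x, y` of the same vertex.

Write `x ≡ y` if `χ i x = χ i y` for all `i`; then `M x z = M y z`, `A x = A y`.
(0) For `j` at `v` there is a corner `pre j` of `v` with `pre j < pos j` and `pre j ≡ pos j - 1`: the `en j'` of the last
`j'` at `v` with `pos j' < pos j` (then `en j' < pos j` by `Ax.part`), or `lo v` if there is none; no leaf position lies
strictly between (a leaf `x` with position in `(lo v, pos j)` is in a branch at `v`).  Similarly the last corner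
of `v` (the `en j` of the last `j` at `v`, or `lo v`) is `≡ hi v - 1`.
(1) Mixed differences vanish, so by induction along the corners of `v` (in increasing order), with `x₀ = lo v`:
`M x y = M x x₀ + M x₀ y - M x₀ x₀` for all corners `x, y`, hence `M x y = M x x₀ - M y x₀`.
(2) For each leaf `j`: `M (en j) (pos j - 1) = A (en j) - A (pos j - 1)`: for `j = mi i`: `χ k (st i) - χ k (st i - 1) = [k = i]`
(`cyc_mi`), so the right side is `M (st i) (st i - 1)`; for `j = p c`: `pp c ≡ pm c - 1` and `pp c - 1 ≡ pm c`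
(`chi_pp`), so both sides are minus those for `m c`.
(3) By strong induction on the vertex (vertices with larger `lo` first): assume the claim for the children.  For
`j = t a` at `v`: `M (hi a) (lo a - 1) = M x_r x₀ = A x_r - A x₀ = A (hi a) - A (lo a - 1)`, where `x₀ = lo a ≡ lo a - 1` and
`x_r ≡ hi a - 1 ≡ hi a` is the last corner of `some a` (`hi a`, `lo a` are not leaf positions).
So for all `j` at `v`: `M (en j) (pre j) = A (en j) - A (pre j)`, and by (1) `M (en j) (pre j) = M (en j) x₀ - M (pre j) x₀`.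
By induction along the corners `M x x₀ = A x - A x₀` for all corners `x` of `v`; with (1) the claim follows.
-/

set_option autoImplicit false

namespace GB

namespace PD

variable {W C Z : Type} (P : PD W C Z)

noncomputable def MM [Fintype C] [Fintype Z] (m : Ch C Z → Ch C Z → ℤ) (x y : ℕ) : ℤ :=
  ∑ i, ∑ k, m i k * P.chi i x * P.chi k y

/-- the potential -/
noncomputable def AA [Fintype C] [Fintype Z] (m : Ch C Z → Ch C Z → ℤ) (x : ℕ) : ℤ :=
  ∑ i, P.chi i x * P.MM m (P.pos (mi i : JJ W C Z)) (P.pos (mi i : JJ W C Z) - 1)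

/-- corners at a vertex -/
def Cor (v : Option W) (x : ℕ) : Prop := x = P.lo v ∨ ∃ j, P.vt j = v ∧ x = P.en j

variable {P}

private theorem pos_le_en (h : P.Ax) (j : JJ W C Z) : P.pos j ≤ P.en j := by
  cases j with
  | t a => exact (h.a0 (some a)).le
  | m c => exact le_rfl
  | p c => exact le_rfl
  | z k => exact le_rfl

private theorem chi_const (h : P.Ax) (i : Ch C Z) {x q : ℕ} (hxq : x < q)
    (hno : ∀ l : JJ W C Z, (∀ a, l ≠ .t a) → x < P.pos l → P.pos l < q → False) :
    P.chi i x = P.chi i (q - 1) := by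
  obtain ⟨d, rfl⟩ : ∃ d, q = x + 1 + d := ⟨q - (x + 1), by omega⟩
  clear hxq
  induction d with
  | zero => rfl
  | succ d ih =>
    have h1 := ih fun l h1 h2 h3 => hno l h1 h2 (by omega)
    have h2 := h.chi_tame i (x + 1 + (d + 1) - 1) (by omega) fun l hl hp =>
      hno l hl (by omega) (by omega)
    rw [h2, h1]
    congr 1

private theorem last_corner (h : P.Ax) {v : Option W} {q : ℕ} (hq : P.lo v < q) (hq' : q ≤ P.hi v)
    (hsep : ∀ k, P.vt k = v → P.pos k < q → P.en k < q) :
    ∃ x, P.Cor v x ∧ x < q ∧ ∀ i, P.chi i x = P.chi i (q - 1) := by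
  classical
  by_cases hS : ∃ k, P.vt k = v ∧ P.pos k < q
  · obtain ⟨k0, hk0, hk0'⟩ := hS
    have hsp := Nat.findGreatest_spec (P := fun n => ∃ k, P.vt k = v ∧ P.pos k = n)
      (show P.pos k0 ≤ q - 1 by omega) ⟨k0, hk0, rfl⟩
    obtain ⟨k, hk, hk'⟩ := hsp
    have hle := Nat.findGreatest_le (P := fun n => ∃ k, P.vt k = v ∧ P.pos k = n) (q - 1)
    have hmax : ∀ k', P.vt k' = v → P.pos k' < q → P.pos k' ≤ P.pos k := by
      intro k' h1 h2
      rw [hk']
      exact Nat.le_findGreatest (by omega) ⟨k', h1, rfl⟩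
    have hkq : P.pos k < q := by omega
    refine ⟨P.en k, Or.inr ⟨k, hk, rfl⟩, hsep k hk hkq, fun i => ?_⟩
    refine chi_const h i (hsep k hk hkq) fun l hl h1 h2 => ?_
    have hk1 := h.a1 k
    rw [hk] at hk1
    have hke := pos_le_en h k
    have hbl : P.bey v l := ⟨by omega, by omega⟩
    obtain ⟨k', ⟨hk'1, hk'2⟩, -⟩ := h.part hbl
    have h3 := hmax k' hk'1 (lt_of_le_of_lt hk'2.1 h2)
    have h4 : P.inb k' k := ⟨h3, by have := hk'2.2; omega⟩
    have hbk : P.bey v k := ⟨hk1.1, hk1.2⟩
    have h5 := (h.part hbk).unique ⟨hk'1, h4⟩ ⟨hk, h.inb_self k⟩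
    subst h5
    have := hk'2.2
    omega
  · refine ⟨P.lo v, Or.inl rfl, hq, fun i => ?_⟩
    refine chi_const h i hq fun l hl h1 h2 => ?_
    have hbl : P.bey v l := ⟨h1, by omega⟩
    obtain ⟨k', ⟨hk'1, hk'2⟩, -⟩ := h.part hbl
    exact hS ⟨k', hk'1, lt_of_le_of_lt hk'2.1 h2⟩

/-- the gap before `j` is a corner (up to the position of non-leaves) -/
theorem Ax.pre (h : P.Ax) [Finite W] [Finite C] [Finite Z] (j : JJ W C Z) :
    ∃ x, P.Cor (P.vt j) x ∧ x < P.pos j ∧ ∀ i, P.chi i x = P.chi i (P.pos j - 1) := by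
  refine last_corner h (h.a1 j).1 (h.a1 j).2.le fun k hk hlt => ?_
  by_contra hcon
  have h1 : P.inb k j := ⟨hlt.le, by omega⟩
  have h2 := (h.part (v := P.vt j) (x := j) (h.a1 j)).unique ⟨hk, h1⟩ ⟨rfl, h.inb_self j⟩
  subst h2
  omega

private theorem MM_congr [Fintype C] [Fintype Z] (m : Ch C Z → Ch C Z → ℤ) {x x' y y' : ℕ}
    (hx : ∀ i, P.chi i x = P.chi i x') (hy : ∀ i, P.chi i y = P.chi i y') :
    P.MM m x y = P.MM m x' y' := by
  unfold MM
  refine Finset.sum_congr rfl fun i _ => Finset.sum_congr rfl fun k _ => ?_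
  rw [hx, hy]

private theorem AA_congr [Fintype C] [Fintype Z] (m : Ch C Z → Ch C Z → ℤ) {x x' : ℕ}
    (hx : ∀ i, P.chi i x = P.chi i x') : P.AA m x = P.AA m x' := by
  unfold AA
  refine Finset.sum_congr rfl fun i _ => ?_
  rw [hx]

private theorem MM_anti [Fintype C] [Fintype Z] (m : Ch C Z → Ch C Z → ℤ)
    (hm : ∀ i k, m k i = - m i k) (x y : ℕ) : P.MM m y x = - P.MM m x y := by
  unfold MM
  rw [Finset.sum_comm, ← Finset.sum_neg_distrib]
  refine Finset.sum_congr rfl fun i _ => ?_
  rw [← Finset.sum_neg_distrib]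
  refine Finset.sum_congr rfl fun k _ => ?_
  rw [hm i k]
  ring

private theorem loc_MM [Fintype C] [Fintype Z] (m : Ch C Z → Ch C Z → ℤ) (j j' : JJ W C Z)
    (hl : ∑ i, ∑ k, m i k * P.cyc i j * P.cyc k j' = 0) :
    P.MM m (P.en j) (P.en j') - P.MM m (P.pos j - 1) (P.en j') =
      P.MM m (P.en j) (P.pos j' - 1) - P.MM m (P.pos j - 1) (P.pos j' - 1) := by
  rw [← sub_eq_zero, ← hl]
  unfold MM cyc
  simp only [← Finset.sum_sub_distrib]
  refine Finset.sum_congr rfl fun i _ => Finset.sum_congr rfl fun k _ => ?_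
  ring

private theorem poten_aux [Fintype W] [Fintype C] [Fintype Z] (h : P.Ax)
    (m : Ch C Z → Ch C Z → ℤ) (hm : ∀ i k, m k i = - m i k)
    (hloc : ∀ j j' : JJ W C Z, P.vt j = P.vt j' →
      ∑ i, ∑ k, m i k * P.cyc i j * P.cyc k j' = 0) (v : Option W)
    (hstep : ∀ j, P.vt j = v → P.MM m (P.en j) (P.pos j - 1) = P.AA m (P.en j) - P.AA m (P.pos j - 1))
    (x y : ℕ) (hx : P.Cor v x) (hy : P.Cor v y) :
    P.MM m x y = P.AA m x - P.AA m y := by
  have h00 : P.MM m (P.lo v) (P.lo v) = 0 := by
    have := MM_anti (P := P) m hm (P.lo v) (P.lo v)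
    omega
  have s1 : ∀ j, P.vt j = v → ∀ n y, y ≤ n → P.Cor v y →
      P.MM m (P.en j) y - P.MM m (P.pos j - 1) y =
        P.MM m (P.en j) (P.lo v) - P.MM m (P.pos j - 1) (P.lo v) := by
    intro j hj n
    induction n with
    | zero =>
      intro y hyn hy
      rcases hy with rfl | ⟨j', hj', rfl⟩
      · rfl
      · have h1 := pos_le_en h j'
        have h2 := (h.a1 j').1
        omega
    | succ n ih =>
      intro y hyn hy
      rcases hy with rfl | ⟨j', hj', rfl⟩
      · rfl
      · obtain ⟨x', hx'1, hx'2, hx'3⟩ := h.pre j'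
        rw [hj'] at hx'1
        have h1 := pos_le_en h j'
        rw [loc_MM m j j' (hloc j j' (hj.trans hj'.symm))]
        rw [MM_congr m (x := P.en j) (x' := P.en j) (fun _ => rfl) (fun i => (hx'3 i).symm),
          MM_congr m (x := P.pos j - 1) (x' := P.pos j - 1) (fun _ => rfl) (fun i => (hx'3 i).symm)]
        exact ih x' (by omega) hx'1
  have s2 : ∀ n x, x ≤ n → P.Cor v x → ∀ y, P.Cor v y →
      P.MM m x y = P.MM m x (P.lo v) + P.MM m (P.lo v) y := by
    intro n
    induction n with
    | zero =>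
      intro x hxn hx y hy
      rcases hx with rfl | ⟨j', hj', rfl⟩
      · rw [h00, zero_add]
      · have h1 := pos_le_en h j'
        have h2 := (h.a1 j').1
        omega
    | succ n ih =>
      intro x hxn hx y hy
      rcases hx with rfl | ⟨j', hj', rfl⟩
      · rw [h00, zero_add]
      · obtain ⟨x', hx'1, hx'2, hx'3⟩ := h.pre j'
        rw [hj'] at hx'1
        have h1 := pos_le_en h j'
        have h2 := s1 j' hj' y y le_rfl hy
        rw [MM_congr m (fun i => (hx'3 i).symm) (y := y) (y' := y) (fun _ => rfl),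
          MM_congr m (fun i => (hx'3 i).symm) (y := P.lo v) (y' := P.lo v) (fun _ => rfl)] at h2
        have h3 := ih x' (by omega) hx'1 y hy
        linarith
  have s3 : ∀ n x, x ≤ n → P.Cor v x → P.MM m x (P.lo v) = P.AA m x - P.AA m (P.lo v) := by
    intro n
    induction n with
    | zero =>
      intro x hxn hx
      rcases hx with rfl | ⟨j', hj', rfl⟩
      · rw [h00, sub_self]
      · have h1 := pos_le_en h j'
        have h2 := (h.a1 j').1
        omega
    | succ n ih =>
      intro x hxn hx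
      rcases hx with rfl | ⟨j', hj', rfl⟩
      · rw [h00, sub_self]
      · obtain ⟨x', hx'1, hx'2, hx'3⟩ := h.pre j'
        rw [hj'] at hx'1
        have h1 := pos_le_en h j'
        have h2 := hstep j' hj'
        rw [MM_congr m (x := P.en j') (x' := P.en j') (fun _ => rfl) (fun i => (hx'3 i).symm),
          AA_congr m (fun i => (hx'3 i).symm)] at h2
        have h3 := s2 (P.en j') (P.en j') le_rfl (Or.inr ⟨j', hj', rfl⟩) x' hx'1
        have h4 := ih x' (by omega) hx'1
        have h5 := MM_anti (P := P) m hm x' (P.lo v)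
        linarith
  have h1 := s2 x x le_rfl hx y hy
  have h2 := s3 x x le_rfl hx
  have h3 := s3 y y le_rfl hy
  have h4 := MM_anti (P := P) m hm y (P.lo v)
  linarith

private theorem poten_ind [Fintype W] [Fintype C] [Fintype Z] (h : P.Ax)
    (m : Ch C Z → Ch C Z → ℤ) (hm : ∀ i k, m k i = - m i k)
    (hloc : ∀ j j' : JJ W C Z, P.vt j = P.vt j' →
      ∑ i, ∑ k, m i k * P.cyc i j * P.cyc k j' = 0) :
    ∀ (n : ℕ) (v : Option W), P.hi none ≤ P.lo v + n → ∀ (x y : ℕ), P.Cor v x → P.Cor v y →
      P.MM m x y = P.AA m x - P.AA m y := by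
  classical
  have hmi : ∀ i : Ch C Z, P.MM m (P.pos (mi i : JJ W C Z)) (P.pos (mi i : JJ W C Z) - 1) =
      P.AA m (P.pos (mi i : JJ W C Z)) - P.AA m (P.pos (mi i : JJ W C Z) - 1) := by
    intro i
    have hen : P.en (mi i : JJ W C Z) = P.pos (mi i : JJ W C Z) := by
      rcases i with c | k <;> rfl
    unfold AA
    rw [← Finset.sum_sub_distrib]
    have h1 : ∀ k : Ch C Z, P.chi k (P.pos (mi i : JJ W C Z)) * P.MM m (P.pos (mi k : JJ W C Z))
        (P.pos (mi k : JJ W C Z) - 1) - P.chi k (P.pos (mi i : JJ W C Z) - 1) *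
        P.MM m (P.pos (mi k : JJ W C Z)) (P.pos (mi k : JJ W C Z) - 1) =
        if k = i then P.MM m (P.pos (mi i : JJ W C Z)) (P.pos (mi i : JJ W C Z) - 1) else 0 := by
      intro k
      have h2 := h.cyc_mi k i
      unfold cyc at h2
      rw [hen] at h2
      rw [← sub_mul, h2]
      by_cases hki : k = i
      · rw [if_pos hki, if_pos hki, one_mul, hki]
      · rw [if_neg hki, if_neg hki, zero_mul]
    rw [Finset.sum_congr rfl fun k _ => h1 k, Finset.sum_ite_eq' Finset.univ i]
    simp
  intro n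
  induction n with
  | zero =>
    intro v hv
    have h1 := h.a0 v
    have h2 := h.hi_le_none v
    omega
  | succ n ih =>
    intro v hv
    refine poten_aux h m hm hloc v fun j hj => ?_
    cases j with
    | m c => exact hmi (Sum.inl c)
    | z k => exact hmi (Sum.inr k)
    | p c =>
      have h1 := hmi (Sum.inl c)
      change P.MM m (P.pp c) (P.pp c - 1) = P.AA m (P.pp c) - P.AA m (P.pp c - 1)
      change P.MM m (P.pm c) (P.pm c - 1) = P.AA m (P.pm c) - P.AA m (P.pm c - 1) at h1
      rw [MM_congr m (fun i => (h.chi_pp i c).1) (fun i => (h.chi_pp i c).2),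
        AA_congr m (fun i => (h.chi_pp i c).1), AA_congr m (fun i => (h.chi_pp i c).2),
        MM_anti m hm (P.pm c) (P.pm c - 1), h1]
      ring
    | t a =>
      have hpa : P.par a = v := hj
      have hlo := h.par_lt a
      rw [hpa] at hlo
      have hhi := h.a0 (some a)
      change P.MM m (P.hi (some a)) (P.lo (some a) - 1) =
        P.AA m (P.hi (some a)) - P.AA m (P.lo (some a) - 1)
      have c1 : ∀ i, P.chi i (P.hi (some a)) = P.chi i (P.hi (some a) - 1) := fun i =>
        h.chi_tame i _ (by omega) fun l _ => h.a8 (some a) l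
      have c2 : ∀ i, P.chi i (P.lo (some a)) = P.chi i (P.lo (some a) - 1) := fun i =>
        h.chi_tame i _ (by omega) fun l hl hp => hl a (h.a4 (show P.pos l = P.pos (.t a) from hp))
      obtain ⟨x, hx1, hx2, hx3⟩ := last_corner h (v := some a) (q := P.hi (some a)) hhi le_rfl (by
        intro k hk _
        cases k with
        | t b =>
          have := h.a2 b
          have hk' : P.par b = some a := hk
          rw [hk'] at this
          exact this
        | m c =>
          have := (h.a1 (.m c)).2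
          rw [hk] at this
          exact this
        | p c =>
          have := (h.a1 (.p c)).2
          rw [hk] at this
          exact this
        | z c =>
          have := (h.a1 (.z c)).2
          rw [hk] at this
          exact this)
      have e1 : ∀ i, P.chi i (P.hi (some a)) = P.chi i x := fun i => (c1 i).trans (hx3 i).symm
      rw [MM_congr m e1 (fun i => (c2 i).symm), AA_congr m e1, AA_congr m (fun i => (c2 i).symm)]
      exact ih (some a) (by omega) x (P.lo (some a)) hx1 (Or.inl rfl)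

theorem Ax.poten [Fintype W] [Fintype C] [Fintype Z] (h : P.Ax)
    (m : Ch C Z → Ch C Z → ℤ) (hm : ∀ i k, m k i = - m i k)
    (hloc : ∀ j j' : JJ W C Z, P.vt j = P.vt j' →
      ∑ i, ∑ k, m i k * P.cyc i j * P.cyc k j' = 0)
    (v : Option W) (x y : ℕ) (hx : P.Cor v x) (hy : P.Cor v y) :
    P.MM m x y = P.AA m x - P.AA m y :=
  poten_ind h m hm hloc (P.hi none) v (Nat.le_add_left _ _) x y hx hy

end PD

end GB
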