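import Pool.Agent.Helper95.GB.PL.Ord

/-! # GB/PL/Tel: telescoping around a vertex (stub, prove in place)

A function `ψ : ℕ → ℤ` is called tame if `ψ p = ψ (p - 1)` for all `p ≥ 1` which are not the position of a leaf
(`m c`, `p c`, `z k`).

`tel`: for tame `ψ` and every vertex `v`: `∑_{k at v} (ψ (en k) - ψ (pos k - 1)) = ψ (hi v - 1) - ψ (lo v)`.
Proof: with `d p = ψ p - ψ (p - 1)` the left side is `∑_{k at v} ∑_{p ∈ [pos k, en k]} d p` (`pos k ≥ 1`), the right
side is `∑_{p ∈ (lo v, hi v)} d p`.  `d p ≠ 0` only for leaf positions `p`; a leaf `x` with `pos x ∈ (lo v, hi v)` is in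
exactly one branch at `v` (`Ax.part`), and the branches at `v` are contained in `(lo v, hi v)` (`Ax.inb_bey`; the position
`hi (some a)` at the end of a branch is not a leaf position).  So both sides are the sum of `d (pos x)` over the leaves
`x` with `bey v x` (use `Finset.sum_comm` / `Finset.sum_fiberwise`, positions are injective).

`tel_t`: `ψ (hi (some a)) - ψ (lo (some a) - 1) = ψ (hi (some a) - 1) - ψ (lo (some a))` for tame `ψ`.
-/

set_option autoImplicit false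

namespace GB

namespace PD

variable {W C Z : Type} (P : PD W C Z)

/-- `ψ` changes only at the positions of leaves -/
def Tame (ψ : ℕ → ℤ) : Prop := ∀ p, 1 ≤ p → (∀ x : JJ W C Z, (∀ a, x ≠ .t a) → P.pos x ≠ p) →
  ψ p = ψ (p - 1)

variable {P}

open Classical in
private theorem Tel_aux [Fintype W] [Fintype C] [Fintype Z] (h : P.Ax) (ψ : ℕ → ℤ)
    (hψ : P.Tame ψ) (a n : ℕ) :
    ψ (a + n) - ψ a = ∑ x : JJ W C Z,
      if (∀ b, x ≠ .t b) ∧ a < P.pos x ∧ P.pos x ≤ a + n then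
        ψ (P.pos x) - ψ (P.pos x - 1) else 0 := by
  induction n with
  | zero =>
    rw [add_zero, sub_self]
    symm
    exact Finset.sum_eq_zero fun x _ => if_neg (by rintro ⟨_, h1, h2⟩; omega)
  | succ n ih =>
    have hsplit : ∀ x : JJ W C Z,
        (if (∀ b, x ≠ .t b) ∧ a < P.pos x ∧ P.pos x ≤ a + (n + 1) then
          ψ (P.pos x) - ψ (P.pos x - 1) else 0) =
        (if (∀ b, x ≠ .t b) ∧ a < P.pos x ∧ P.pos x ≤ a + n then
          ψ (P.pos x) - ψ (P.pos x - 1) else 0) +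
        (if (∀ b, x ≠ .t b) ∧ P.pos x = a + n + 1 then
          ψ (P.pos x) - ψ (P.pos x - 1) else 0) := by
      intro x
      by_cases h1 : ∀ b, x ≠ .t b
      · by_cases h2 : P.pos x = a + n + 1
        · rw [if_pos ⟨h1, by omega, by omega⟩, if_neg (by rintro ⟨_, h3, h4⟩; omega),
            if_pos ⟨h1, h2⟩, zero_add]
        · rw [if_neg (c := (∀ b, x ≠ .t b) ∧ P.pos x = a + n + 1) (fun h3 => h2 h3.2), add_zero]
          by_cases h3 : a < P.pos x ∧ P.pos x ≤ a + n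
          · rw [if_pos ⟨h1, h3.1, by omega⟩, if_pos ⟨h1, h3⟩]
          · rw [if_neg (fun h4 => h3 ⟨h4.2.1, by omega⟩), if_neg (fun h4 => h3 h4.2)]
      · rw [if_neg (fun h3 => h1 h3.1), if_neg (fun h3 => h1 h3.1), if_neg (fun h3 => h1 h3.1),
          add_zero]
    rw [Finset.sum_congr rfl fun x _ => hsplit x, Finset.sum_add_distrib, ← ih]
    have hS : (∑ x : JJ W C Z, if (∀ b, x ≠ .t b) ∧ P.pos x = a + n + 1 then
        ψ (P.pos x) - ψ (P.pos x - 1) else 0) = ψ (a + n + 1) - ψ (a + n) := by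
      by_cases hex : ∃ x : JJ W C Z, (∀ b, x ≠ .t b) ∧ P.pos x = a + n + 1
      · obtain ⟨x₀, hl, hp⟩ := hex
        rw [Finset.sum_eq_single x₀]
        · rw [if_pos ⟨hl, hp⟩, hp, Nat.add_sub_cancel]
        · intro x _ hx
          exact if_neg fun h3 => hx (h.a4 (h3.2.trans hp.symm))
        · intro h3
          exact absurd (Finset.mem_univ _) h3
      · have h1 := hψ (a + n + 1) (by omega) fun x hx hpos => hex ⟨x, hx, hpos⟩
        rw [Nat.add_sub_cancel] at h1
        rw [h1, sub_self]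
        exact Finset.sum_eq_zero fun x _ => if_neg fun h3 => hex ⟨x, h3⟩
    rw [hS]
    ring_nf

theorem Ax.tel [Fintype W] [Fintype C] [Fintype Z] (h : P.Ax) (ψ : ℕ → ℤ) (hψ : P.Tame ψ)
    (v : Option W) :
    ∑ k, (by classical exact if P.vt k = v then ψ (P.en k) - ψ (P.pos k - 1) else 0)
      = ψ (P.hi v - 1) - ψ (P.lo v) := by
  classical
  have h1 : ψ (P.hi v - 1) - ψ (P.lo v) = ∑ x : JJ W C Z,
      if (∀ b, x ≠ .t b) ∧ P.bey v x then ψ (P.pos x) - ψ (P.pos x - 1) else 0 := by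
    have h0 := h.a0 v
    have h2 := Tel_aux h ψ hψ (P.lo v) (P.hi v - 1 - P.lo v)
    rw [show P.lo v + (P.hi v - 1 - P.lo v) = P.hi v - 1 by omega] at h2
    rw [h2]
    refine Finset.sum_congr rfl fun x _ => ?_
    refine if_congr ?_ rfl rfl
    constructor
    · rintro ⟨h3, h4, h5⟩
      exact ⟨h3, h4, by omega⟩
    · rintro ⟨h3, h4, h5⟩
      exact ⟨h3, h4, by omega⟩
  have h2 : ∀ k : JJ W C Z, P.vt k = v → ψ (P.en k) - ψ (P.pos k - 1) = ∑ x : JJ W C Z,
      if (∀ b, x ≠ .t b) ∧ P.inb k x then ψ (P.pos x) - ψ (P.pos x - 1) else 0 := by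
    intro k hk
    have h3 := (h.a1 k).1
    have h4 := (h.inb_self k).2
    have h5 := Tel_aux h ψ hψ (P.pos k - 1) (P.en k - (P.pos k - 1))
    rw [show P.pos k - 1 + (P.en k - (P.pos k - 1)) = P.en k by omega] at h5
    rw [h5]
    refine Finset.sum_congr rfl fun x _ => ?_
    refine if_congr ?_ rfl rfl
    constructor
    · rintro ⟨h6, h7, h8⟩
      exact ⟨h6, by omega, h8⟩
    · rintro ⟨h6, h7, h8⟩
      exact ⟨h6, by omega, h8⟩
  have h3 : ∑ k : JJ W C Z, (if P.vt k = v then ψ (P.en k) - ψ (P.pos k - 1) else 0) =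
      ∑ k : JJ W C Z, ∑ x : JJ W C Z, if P.vt k = v ∧ (∀ b, x ≠ .t b) ∧ P.inb k x then
        ψ (P.pos x) - ψ (P.pos x - 1) else 0 := by
    refine Finset.sum_congr rfl fun k _ => ?_
    by_cases hk : P.vt k = v
    · rw [if_pos hk, h2 k hk]
      refine Finset.sum_congr rfl fun x _ => if_congr ?_ rfl rfl
      exact ⟨fun h4 => ⟨hk, h4⟩, fun h4 => h4.2⟩
    · rw [if_neg hk]
      exact (Finset.sum_eq_zero fun x _ => if_neg fun h4 => hk h4.1).symm
  refine h3.trans ?_
  rw [h1, Finset.sum_comm]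
  refine Finset.sum_congr rfl fun x _ => ?_
  by_cases hx : (∀ b, x ≠ .t b) ∧ P.bey v x
  · rw [if_pos hx]
    obtain ⟨k, ⟨hk1, hk2⟩, huniq⟩ := h.part hx.2
    rw [Finset.sum_eq_single k]
    · exact if_pos ⟨hk1, hx.1, hk2⟩
    · intro l _ hl
      exact if_neg fun h4 => hl (huniq l ⟨h4.1, h4.2.2⟩)
    · intro h4
      exact absurd (Finset.mem_univ _) h4
  · rw [if_neg hx]
    refine Finset.sum_eq_zero fun k _ => if_neg fun h4 => hx ⟨h4.2.1, ?_⟩
    rw [← h4.1]
    exact h.inb_bey h4.2.2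

theorem Ax.tel_t (h : P.Ax) (ψ : ℕ → ℤ) (hψ : P.Tame ψ) (a : W) :
    ψ (P.hi (some a)) - ψ (P.lo (some a) - 1) = ψ (P.hi (some a) - 1) - ψ (P.lo (some a)) := by
  have h0 := h.a0 (some a)
  have h1 := h.par_lt a
  rw [hψ (P.hi (some a)) (by omega) fun x _ hx => h.a8 (some a) x hx,
    hψ (P.lo (some a)) (by omega) fun x hx hx' => hx a (h.a4 hx')]

end PD

end GB
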